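import Pool.Agent.K3h41.SG.Sys
import Pool.Agent.Y483.Functors
import Pool.Agent.Y110.KW.Trf

/-!
The rationalised L-groups of group rings commute with directed colimits (the part which is needed:
an element which becomes zero in the colimit is zero at a finite stage).
-/

namespace Pool.Agent.K3h41.SG

open Finsupp Pool.Agent.Y483 Pool.Agent.Y110.KW Matrix

/-- A directed system of rings with involution with colimit `S`. -/
structure RSys (J : Type) [Preorder J] (R : J → Type) [∀ i, Ring (R i)] [∀ i, StarRing (R i)]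
    (S : Type) [Ring S] [StarRing S] where
  f : ∀ i j, i ≤ j → R i →⋆ₙ+* R j
  g : ∀ i, R i →⋆ₙ+* S
  ff : ∀ i j k (h : i ≤ j) (h' : j ≤ k) x, f j k h' (f i j h x) = f i k (h.trans h') x
  gf : ∀ i j (h : i ≤ j) x, g j (f i j h x) = g i x
  sur : ∀ y, ∃ i x, g i x = y
  inj : ∀ i x, g i x = 0 → ∃ j, ∃ h : i ≤ j, f i j h x = 0

namespace RSys

variable {J : Type} [Preorder J] [IsDirectedOrder J] {R : J → Type} [∀ i, Ring (R i)]
  [∀ i, StarRing (R i)] {S : Type} [Ring S] [StarRing S] (s : RSys J R S)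

include s

omit [IsDirectedOrder J] in
theorem coin {i : J} {x y : R i} (h : s.g i x = s.g i y) :
    ∃ j, ∃ hj : i ≤ j, s.f i j hj x = s.f i j hj y := by
  obtain ⟨j, hj, h1⟩ := s.inj i (x - y) (by rw [map_sub, h, sub_self])
  exact ⟨j, hj, by rwa [map_sub, sub_eq_zero] at h1⟩

omit [IsDirectedOrder J] in
theorem coin_mono {i j k : J} (hij : i ≤ j) (hjk : j ≤ k) {x y : R i}
    (h : s.f i j hij x = s.f i j hij y) :
    s.f i k (hij.trans hjk) x = s.f i k (hij.trans hjk) y := by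
  rw [← s.ff i j k hij hjk, h, s.ff]

theorem coin_fam {i : J} {ι : Type} [Finite ι] {x y : ι → R i}
    (h : ∀ a, s.g i (x a) = s.g i (y a)) :
    ∃ j, ∃ hj : i ≤ j, ∀ a, s.f i j hj (x a) = s.f i j hj (y a) := by
  classical
  have := Fintype.ofFinite ι
  have key : ∀ P : Finset ι, ∃ j, ∃ hj : i ≤ j, ∀ a ∈ P, s.f i j hj (x a) = s.f i j hj (y a) := by
    intro P
    induction P using Finset.induction_on with
    | empty => exact ⟨i, le_refl i, fun p hp => absurd hp (Finset.notMem_empty p)⟩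
    | insert p P hp ih =>
      obtain ⟨j, hj, h1⟩ := ih
      obtain ⟨j', hj', h2⟩ := s.coin (h p)
      obtain ⟨k, hk, hk'⟩ := exists_ge_ge j j'
      refine ⟨k, hj.trans hk, fun q hq => ?_⟩
      rcases Finset.mem_insert.mp hq with rfl | hq
      · exact s.coin_mono hj' hk' h2
      · exact s.coin_mono hj hk (h1 q hq)
  obtain ⟨j, hj, h1⟩ := key Finset.univ
  exact ⟨j, hj, fun a => h1 a (Finset.mem_univ a)⟩

theorem lift_fam (i : J) {ι : Type} [Finite ι] (t : ι → S) :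
    ∃ j, ∃ _ : i ≤ j, ∃ t' : ι → R j, ∀ a, s.g j (t' a) = t a := by
  classical
  have := Fintype.ofFinite ι
  have key : ∀ P : Finset ι, ∃ j, ∃ _ : i ≤ j, ∃ t' : ι → R j, ∀ a ∈ P, s.g j (t' a) = t a := by
    intro P
    induction P using Finset.induction_on with
    | empty => exact ⟨i, le_refl i, fun _ => 0, fun p hp => absurd hp (Finset.notMem_empty p)⟩
    | insert p P hp ih =>
      obtain ⟨j, hj, t', h1⟩ := ih
      obtain ⟨k, x, hx⟩ := s.sur (t p)
      obtain ⟨l, hl, hl'⟩ := exists_ge_ge j k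
      refine ⟨l, hj.trans hl, fun a => if a = p then s.f k l hl' x else s.f j l hl (t' a),
        fun q hq => ?_⟩
      by_cases hqp : q = p
      · simp only [hqp, if_true]
        rw [s.gf, hx]
      · simp only [hqp, if_false]
        rw [s.gf]
        exact h1 q ((Finset.mem_insert.mp hq).resolve_left hqp)
  obtain ⟨j, hj, t', h1⟩ := key Finset.univ
  exact ⟨j, hj, t', fun a => h1 a (Finset.mem_univ a)⟩

variable {m n : Type} [Finite m] [Finite n]

theorem lift_mat (i : J) (M : Matrix m n S) :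
    ∃ j, ∃ _ : i ≤ j, ∃ M' : Matrix m n (R j), M'.map (s.g j) = M := by
  obtain ⟨j, hj, t, ht⟩ := s.lift_fam i (fun p : m × n => M p.1 p.2)
  exact ⟨j, hj, Matrix.of fun a b => t (a, b), by ext a b; exact ht (a, b)⟩

theorem coin_mat {i : J} {M N : Matrix m n (R i)} (h : M.map (s.g i) = N.map (s.g i)) :
    ∃ j, ∃ hj : i ≤ j, M.map (s.f i j hj) = N.map (s.f i j hj) := by
  obtain ⟨j, hj, h1⟩ := s.coin_fam (i := i) (x := fun p : m × n => M p.1 p.2)
    (y := fun p : m × n => N p.1 p.2) (fun p => congrFun (congrFun h p.1) p.2)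
  exact ⟨j, hj, by ext a b; exact h1 (a, b)⟩

omit [IsDirectedOrder J] [Finite m] [Finite n] in
theorem map_ff {i j k : J} (h : i ≤ j) (h' : j ≤ k) (M : Matrix m n (R i)) :
    (M.map (s.f i j h)).map (s.f j k h') = M.map (s.f i k (h.trans h')) := by
  ext a b
  exact s.ff i j k h h' _

omit [IsDirectedOrder J] [Finite m] [Finite n] in
theorem map_gf {i j : J} (h : i ≤ j) (M : Matrix m n (R i)) :
    (M.map (s.f i j h)).map (s.g j) = M.map (s.g i) := by
  ext a b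
  exact s.gf i j h _

omit [IsDirectedOrder J] [Finite m] [Finite n] in
theorem mat_mono {i j k : J} (hij : i ≤ j) (hjk : j ≤ k) {M N : Matrix m n (R i)}
    (h : M.map (s.f i j hij) = N.map (s.f i j hij)) :
    M.map (s.f i k (hij.trans hjk)) = N.map (s.f i k (hij.trans hjk)) := by
  rw [← s.map_ff hij hjk, h, s.map_ff]

variable {ε : ℤˣ}

omit [IsDirectedOrder J] in
theorem form_ff {N : ℕ} {i j k : J} (h : i ≤ j) (h' : j ≤ k) (x : QForm (R i) ε (Fin N)) :
    (x.map (s.f i j h)).map (s.f j k h') = x.map (s.f i k (h.trans h')) :=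
  QForm.ext (s.map_ff h h' _) (s.map_ff h h' _)

omit [IsDirectedOrder J] in
theorem form_gf {N : ℕ} {i j : J} (h : i ≤ j) (x : QForm (R i) ε (Fin N)) :
    (x.map (s.f i j h)).map (s.g j) = x.map (s.g i) :=
  QForm.ext (s.map_gf h _) (s.map_gf h _)

/-- Forms over the colimit come from a finite stage. -/
theorem lift_form (i : J) {N : ℕ} (x : QForm S ε (Fin N)) :
    ∃ j, ∃ _ : i ≤ j, ∃ x' : QForm (R j) ε (Fin N), x'.map (s.g j) = x := by
  obtain ⟨j1, h1, θ', hθ⟩ := s.lift_mat i x.θ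
  obtain ⟨j2, h2, ψ', hψ⟩ := s.lift_mat j1 x.ψ
  -- common stage
  have hθ2 : (θ'.map (s.f j1 j2 h2)).map (s.g j2) = x.θ := by rw [s.map_gf, hθ]
  set θ2 := θ'.map (s.f j1 j2 h2)
  obtain ⟨j3, h3, e3⟩ := s.coin_mat (i := j2) (M := dag ε ψ') (N := ψ') (by
    rw [← dag_map, hψ, x.dag_psi])
  obtain ⟨j4, h4, e4⟩ := s.coin_mat (i := j2) (M := ψ' * (θ2 + dag ε θ2) * ψ') (N := ψ') (by
    rw [Matrix.map_mul, Matrix.map_mul, Matrix.map_add (s.g j2) (map_add (s.g j2)), ← dag_map,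
      hψ, hθ2, x.psi_phi_psi])
  obtain ⟨j5, h5, e5⟩ := s.coin_mat (i := j2)
    (M := (θ2 + dag ε θ2) * ψ' * θ2 * (ψ' * (θ2 + dag ε θ2))) (N := θ2) (by
    rw [Matrix.map_mul, Matrix.map_mul, Matrix.map_mul, Matrix.map_mul,
      Matrix.map_add (s.g j2) (map_add (s.g j2)), ← dag_map,
      hψ, hθ2, x.compress])
  obtain ⟨k1, hk1, hk1'⟩ := exists_ge_ge j3 j4
  obtain ⟨k, hk, hk'⟩ := exists_ge_ge k1 j5
  have hjk : j2 ≤ k := h5.trans hk'
  have e3' := s.mat_mono h3 (hk1.trans hk) e3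
  have e4' := s.mat_mono h4 (hk1'.trans hk) e4
  have e5' := s.mat_mono h5 hk' e5
  refine ⟨k, (h1.trans h2).trans hjk, ⟨θ2.map (s.f j2 k hjk), ψ'.map (s.f j2 k hjk), ?_, ?_, ?_⟩,
    ?_⟩
  · rw [dag_map]
    exact e3'
  · rw [dag_map, ← Matrix.map_add _ (map_add (s.f j2 k hjk)), ← Matrix.map_mul,
      ← Matrix.map_mul]
    exact e4'
  · rw [dag_map, ← Matrix.map_add _ (map_add (s.f j2 k hjk)), ← Matrix.map_mul,
      ← Matrix.map_mul, ← Matrix.map_mul, ← Matrix.map_mul]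
    exact e5'
  · apply QForm.ext
    · change (θ2.map (s.f j2 k hjk)).map (s.g k) = x.θ
      rw [s.map_gf, hθ2]
    · change (ψ'.map (s.f j2 k hjk)).map (s.g k) = x.ψ
      rw [s.map_gf, hψ]

/-- Forms which agree over the colimit agree at a finite stage. -/
theorem coin_form {i : J} {x y : Forms (R i) ε} (h : formsMap ε (s.g i) x = formsMap ε (s.g i) y) :
    ∃ j, ∃ hj : i ≤ j, formsMap ε (s.f i j hj) x = formsMap ε (s.f i j hj) y := by
  obtain ⟨N, x⟩ := x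
  obtain ⟨N', y⟩ := y
  have hN : N = N' := congrArg Sigma.fst h
  subst hN
  have h1 : x.map (s.g i) = y.map (s.g i) := by
    have := Sigma.mk.inj h
    exact eq_of_heq this.2
  obtain ⟨j1, h1', e1⟩ := s.coin_mat (congrArg QForm.θ h1 : x.θ.map (s.g i) = y.θ.map (s.g i))
  obtain ⟨j2, h2', e2⟩ := s.coin_mat (congrArg QForm.ψ h1 : x.ψ.map (s.g i) = y.ψ.map (s.g i))
  obtain ⟨k, hk, hk'⟩ := exists_ge_ge j1 j2
  refine ⟨k, h1'.trans hk, ?_⟩
  unfold formsMap
  congr 1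
  exact QForm.ext (s.mat_mono h1' hk e1) (s.mat_mono h2' hk' e2)

theorem coin_forms {i : J} (P : Finset (Forms (R i) ε)) :
    ∃ j, ∃ hj : i ≤ j, ∀ x ∈ P, ∀ y ∈ P, formsMap ε (s.g i) x = formsMap ε (s.g i) y →
      formsMap ε (s.f i j hj) x = formsMap ε (s.f i j hj) y := by
  classical
  have key : ∀ Q : Finset (Forms (R i) ε × Forms (R i) ε), ∃ j, ∃ hj : i ≤ j, ∀ p ∈ Q,
      formsMap ε (s.g i) p.1 = formsMap ε (s.g i) p.2 →
        formsMap ε (s.f i j hj) p.1 = formsMap ε (s.f i j hj) p.2 := by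
    have mono : ∀ {j k : J} (hij : i ≤ j) (hjk : j ≤ k) (x y : Forms (R i) ε),
        formsMap ε (s.f i j hij) x = formsMap ε (s.f i j hij) y →
        formsMap ε (s.f i k (hij.trans hjk)) x = formsMap ε (s.f i k (hij.trans hjk)) y := by
      intro j k hij hjk x y h
      have e : ∀ z : Forms (R i) ε, formsMap ε (s.f j k hjk) (formsMap ε (s.f i j hij) z) =
          formsMap ε (s.f i k (hij.trans hjk)) z := by
        intro z
        unfold formsMap
        congr 1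
        exact s.form_ff hij hjk z.2
      rw [← e, ← e, h]
    intro Q
    induction Q using Finset.induction_on with
    | empty => exact ⟨i, le_refl i, fun p hp => absurd hp (Finset.notMem_empty p)⟩
    | insert p Q hp ih =>
      obtain ⟨j, hj, h1⟩ := ih
      by_cases hc : formsMap ε (s.g i) p.1 = formsMap ε (s.g i) p.2
      · obtain ⟨j', hj', h2⟩ := s.coin_form hc
        obtain ⟨k, hk, hk'⟩ := exists_ge_ge j j'
        refine ⟨k, hj.trans hk, fun q hq hq2 => ?_⟩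
        rcases Finset.mem_insert.mp hq with rfl | hq
        · exact mono hj' hk' _ _ h2
        · exact mono hj hk _ _ (h1 q hq hq2)
      · refine ⟨j, hj, fun q hq hq2 => ?_⟩
        rcases Finset.mem_insert.mp hq with rfl | hq
        · exact absurd hq2 hc
        · exact h1 q hq hq2
  obtain ⟨j, hj, h1⟩ := key (P ×ˢ P)
  exact ⟨j, hj, fun x hx y hy => h1 (x, y) (Finset.mem_product.mpr ⟨hx, hy⟩)⟩

theorem lift_isometric {i : J} {N N' : ℕ} (x : QForm (R i) ε (Fin N)) (y : QForm (R i) ε (Fin N'))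
    (h : Isometric (x.map (s.g i)) (y.map (s.g i))) :
    ∃ j, ∃ hj : i ≤ j, Isometric (x.map (s.f i j hj)) (y.map (s.f i j hj)) := by
  obtain ⟨u, h1, χ, h2⟩ := h
  obtain ⟨j1, hj1, u', hu'⟩ := s.lift_mat i u
  obtain ⟨j2, hj2, χ', hχ'⟩ := s.lift_mat j1 χ
  set x2 := x.map (s.f i j2 (hj1.trans hj2)) with hx2
  set y2 := y.map (s.f i j2 (hj1.trans hj2)) with hy2
  set u2 := u'.map (s.f j1 j2 hj2) with hu2
  have hx : x2.map (s.g j2) = x.map (s.g i) := s.form_gf _ x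
  have hy : y2.map (s.g j2) = y.map (s.g i) := s.form_gf _ y
  have hu : u2.map (s.g j2) = u := by rw [hu2, s.map_gf, hu']
  have hstar : ∀ {j : J} (f : R j2 →⋆ₙ+* R j), (u2ᴴ).map f = (u2.map f)ᴴ := by
    intro j f
    ext a b
    exact map_star f _
  have hstar' : (u2ᴴ).map (s.g j2) = uᴴ := by
    rw [← hu]
    ext a b
    exact map_star (s.g j2) _
  obtain ⟨j3, h3, e3⟩ := s.coin_mat (i := j2) (M := u2 * x2.ψ * u2ᴴ) (N := y2.ψ) (by
    rw [Matrix.map_mul, Matrix.map_mul, hstar', hu]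
    change u * (x2.map (s.g j2)).ψ * uᴴ = (y2.map (s.g j2)).ψ
    rw [hx, hy, h1])
  obtain ⟨j4, h4, e4⟩ := s.coin_mat (i := j2) (M := u2ᴴ * y2.θ * u2)
    (N := x2.θ + (χ' - dag ε χ')) (by
    rw [Matrix.map_mul, Matrix.map_mul, hstar', hu, Matrix.map_add (s.g j2) (map_add (s.g j2)),
      Matrix.map_sub (s.g j2) (map_sub (s.g j2)), ← dag_map, hχ']
    change uᴴ * (y2.map (s.g j2)).θ * u = (x2.map (s.g j2)).θ + _
    rw [hx, hy, h2])
  obtain ⟨k, hk, hk'⟩ := exists_ge_ge j3 j4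
  have hjk : j2 ≤ k := h3.trans hk
  have e3' := s.mat_mono h3 hk e3
  have e4' := s.mat_mono h4 hk' e4
  refine ⟨k, (hj1.trans hj2).trans hjk, ?_⟩
  rw [← s.form_ff (hj1.trans hj2) hjk x, ← s.form_ff (hj1.trans hj2) hjk y]
  refine ⟨u2.map (s.f j2 k hjk), ?_, χ'.map (s.f j2 k hjk), ?_⟩
  · rw [← hstar]
    change _ * x2.ψ.map (s.f j2 k hjk) * _ = y2.ψ.map (s.f j2 k hjk)
    rw [← Matrix.map_mul, ← Matrix.map_mul]
    exact e3'
  · rw [← hstar, dag_map]
    change _ * y2.θ.map (s.f j2 k hjk) * _ = x2.θ.map (s.f j2 k hjk) + _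
    rw [← Matrix.map_mul, ← Matrix.map_mul, ← Matrix.map_sub _ (map_sub (s.f j2 k hjk)),
      ← Matrix.map_add _ (map_add (s.f j2 k hjk))]
    exact e4'

theorem lift_hyp {i : J} {N : ℕ} (x : QForm (R i) ε (Fin N))
    (h : IsHyp (x.map (s.g i))) : ∃ j, ∃ hj : i ≤ j, IsHyp (x.map (s.f i j hj)) := by
  obtain ⟨l, h1, h2, h3, χ, h4⟩ := h
  obtain ⟨j1, hj1, l', hl'⟩ := s.lift_mat i l
  obtain ⟨j2, hj2, χ', hχ'⟩ := s.lift_mat j1 χ
  set x2 := x.map (s.f i j2 (hj1.trans hj2)) with hx2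
  set l2 := l'.map (s.f j1 j2 hj2) with hl2
  have hx : x2.map (s.g j2) = x.map (s.g i) := s.form_gf _ x
  have hl : l2.map (s.g j2) = l := by rw [hl2, s.map_gf, hl']
  have hstar : ∀ {j : J} (f : R j2 →⋆ₙ+* R j), (l2ᴴ).map f = (l2.map f)ᴴ := by
    intro j f
    ext a b
    exact map_star f _
  have hstar' : (l2ᴴ).map (s.g j2) = lᴴ := by
    rw [← hl]
    ext a b
    exact map_star (s.g j2) _
  have he : x2.e.map (s.g j2) = (x.map (s.g i)).e := by rw [← QForm.map_e, hx]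
  have hφ : x2.φ.map (s.g j2) = (x.map (s.g i)).φ := by rw [← QForm.map_phi, hx]
  obtain ⟨j3, g3, e3⟩ := s.coin_mat (i := j2) (M := l2 * l2) (N := l2) (by
    rw [Matrix.map_mul, hl, h1])
  obtain ⟨j4, g4, e4⟩ := s.coin_mat (i := j2) (M := l2 * x2.e) (N := l2) (by
    rw [Matrix.map_mul, hl, he, h2])
  obtain ⟨j5, g5, e5⟩ := s.coin_mat (i := j2) (M := x2.e * l2) (N := l2) (by
    rw [Matrix.map_mul, hl, he, h3])
  obtain ⟨j6, g6, e6⟩ := s.coin_mat (i := j2) (M := x2.θ) (N := l2ᴴ * x2.φ + (χ' - dag ε χ')) (by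
    rw [Matrix.map_add (s.g j2) (map_add (s.g j2)),
      Matrix.map_sub (s.g j2) (map_sub (s.g j2)), ← dag_map, hχ', Matrix.map_mul, hstar', hφ]
    change (x2.map (s.g j2)).θ = _
    rw [hx, h4])
  obtain ⟨k1, hk1, hk1'⟩ := exists_ge_ge j3 j4
  obtain ⟨k2, hk2, hk2'⟩ := exists_ge_ge j5 j6
  obtain ⟨k, hk, hk'⟩ := exists_ge_ge k1 k2
  have hjk : j2 ≤ k := g3.trans (hk1.trans hk)
  have e3' := s.mat_mono g3 (hk1.trans hk) e3
  have e4' := s.mat_mono g4 (hk1'.trans hk) e4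
  have e5' := s.mat_mono g5 (hk2.trans hk') e5
  have e6' := s.mat_mono g6 (hk2'.trans hk') e6
  refine ⟨k, (hj1.trans hj2).trans hjk, ?_⟩
  rw [← s.form_ff (hj1.trans hj2) hjk x]
  refine ⟨l2.map (s.f j2 k hjk), ?_, ?_, ?_, χ'.map (s.f j2 k hjk), ?_⟩
  · rw [← Matrix.map_mul]
    exact e3'
  · rw [QForm.map_e, ← Matrix.map_mul]
    exact e4'
  · rw [QForm.map_e, ← Matrix.map_mul]
    exact e5'
  · rw [← hstar, dag_map, QForm.map_phi, ← Matrix.map_mul, ← Matrix.map_sub _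
      (map_sub (s.f j2 k hjk)), ← Matrix.map_add _ (map_add (s.f j2 k hjk))]
    exact e6'

omit [IsDirectedOrder J] in
theorem forms_ff {i j k : J} (h : i ≤ j) (h' : j ≤ k) (z : Forms (R i) ε) :
    formsMap ε (s.f j k h') (formsMap ε (s.f i j h) z) = formsMap ε (s.f i k (h.trans h')) z := by
  unfold formsMap
  congr 1
  exact s.form_ff h h' z.2

omit [IsDirectedOrder J] in
theorem forms_gf {i j : J} (h : i ≤ j) (z : Forms (R i) ε) :
    formsMap ε (s.g j) (formsMap ε (s.f i j h) z) = formsMap ε (s.g i) z := by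
  unfold formsMap
  congr 1
  exact s.form_gf h z.2

omit [IsDirectedOrder J] in
theorem single_gf {N : ℕ} {i k : J} (h : i ≤ k) (x : QForm (R i) ε (Fin N)) :
    mapDomain (formsMap ε (s.g k)) (single (⟨N, x.map (s.f i k h)⟩ : Forms (R k) ε) (1 : ℚ)) =
      single (⟨N, x.map (s.g i)⟩ : Forms S ε) 1 := by
  rw [mapDomain_single, ← s.form_gf h x]
  rfl

theorem lift_rel (i : J) (r : Forms S ε →₀ ℚ) (hr : LRel S ε r) :
    ∃ j, ∃ _ : i ≤ j, ∃ r' : Forms (R j) ε →₀ ℚ, LRel (R j) ε r' ∧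
      mapDomain (formsMap ε (s.g j)) r' = r := by
  have md : ∀ {A B : Type} (φ : A → B) (x y : A →₀ ℚ),
      mapDomain φ (x - y) = mapDomain φ x - mapDomain φ y := by
    intro A B φ x y
    exact map_sub (Finsupp.lmapDomain ℚ ℚ φ) x y
  rcases hr with ⟨x, y, h, rfl⟩ | ⟨N, x, y, z, h1, h2, h3, h4, rfl⟩ | ⟨x, h, rfl⟩
  · obtain ⟨N, x⟩ := x
    obtain ⟨N', y⟩ := y
    obtain ⟨j1, hj1, x', hx'⟩ := s.lift_form i x
    obtain ⟨j2, hj2, y', hy'⟩ := s.lift_form j1 y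
    have hx2 : (x'.map (s.f j1 j2 hj2)).map (s.g j2) = x := by rw [s.form_gf, hx']
    obtain ⟨k, hk, hi⟩ := s.lift_isometric (x'.map (s.f j1 j2 hj2)) y' (by
      rw [hx2, hy']; exact h)
    refine ⟨k, (hj1.trans hj2).trans hk, _, Or.inl
      ⟨⟨N, (x'.map (s.f j1 j2 hj2)).map (s.f j2 k hk)⟩, ⟨N', y'.map (s.f j2 k hk)⟩, hi, rfl⟩, ?_⟩
    rw [md, s.single_gf hk, s.single_gf hk, hx2, hy']
  · obtain ⟨j1, hj1, x1, hx1⟩ := s.lift_form i x
    obtain ⟨j2, hj2, y1, hy1⟩ := s.lift_form j1 y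
    obtain ⟨j3, hj3, z1, hz1⟩ := s.lift_form j2 z
    set x2 := x1.map (s.f j1 j3 (hj2.trans hj3)) with hx2
    set y2 := y1.map (s.f j2 j3 hj3) with hy2
    have ex : x2.map (s.g j3) = x := by rw [hx2, s.form_gf, hx1]
    have ey : y2.map (s.g j3) = y := by rw [hy2, s.form_gf, hy1]
    obtain ⟨k3, g3, e3⟩ := s.coin_mat (i := j3) (M := z1.θ) (N := x2.θ + y2.θ) (by
      rw [Matrix.map_add (s.g j3) (map_add (s.g j3))]
      change (z1.map (s.g j3)).θ = (x2.map (s.g j3)).θ + (y2.map (s.g j3)).θ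
      rw [ex, ey, hz1, h1])
    obtain ⟨k4, g4, e4⟩ := s.coin_mat (i := j3) (M := z1.ψ) (N := x2.ψ + y2.ψ) (by
      rw [Matrix.map_add (s.g j3) (map_add (s.g j3))]
      change (z1.map (s.g j3)).ψ = (x2.map (s.g j3)).ψ + (y2.map (s.g j3)).ψ
      rw [ex, ey, hz1, h2])
    obtain ⟨k5, g5, e5⟩ := s.coin_mat (i := j3) (M := x2.φ * y2.ψ) (N := 0) (by
      rw [Matrix.map_mul, Matrix.map_zero _ (map_zero (s.g j3)), ← QForm.map_phi]
      change (x2.map (s.g j3)).φ * (y2.map (s.g j3)).ψ = 0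
      rw [ex, ey, h3])
    obtain ⟨k6, g6, e6⟩ := s.coin_mat (i := j3) (M := y2.φ * x2.ψ) (N := 0) (by
      rw [Matrix.map_mul, Matrix.map_zero _ (map_zero (s.g j3)), ← QForm.map_phi]
      change (y2.map (s.g j3)).φ * (x2.map (s.g j3)).ψ = 0
      rw [ex, ey, h4])
    obtain ⟨l1, hl1, hl1'⟩ := exists_ge_ge k3 k4
    obtain ⟨l2, hl2, hl2'⟩ := exists_ge_ge k5 k6
    obtain ⟨k, hk, hk'⟩ := exists_ge_ge l1 l2
    have hjk : j3 ≤ k := g3.trans (hl1.trans hk)
    have e3' := s.mat_mono g3 (hl1.trans hk) e3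
    have e4' := s.mat_mono g4 (hl1'.trans hk) e4
    have e5' := s.mat_mono g5 (hl2.trans hk') e5
    have e6' := s.mat_mono g6 (hl2'.trans hk') e6
    refine ⟨k, (hj1.trans (hj2.trans hj3)).trans hjk, _, Or.inr (Or.inl ⟨N,
      x2.map (s.f j3 k hjk), y2.map (s.f j3 k hjk), z1.map (s.f j3 k hjk), ?_, ?_, ?_, ?_, rfl⟩),
      ?_⟩
    · change z1.θ.map _ = x2.θ.map _ + y2.θ.map _
      rw [← Matrix.map_add _ (map_add (s.f j3 k hjk))]
      exact e3'
    · change z1.ψ.map _ = x2.ψ.map _ + y2.ψ.map _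
      rw [← Matrix.map_add _ (map_add (s.f j3 k hjk))]
      exact e4'
    · rw [QForm.map_phi]
      change x2.φ.map _ * y2.ψ.map _ = 0
      rw [← Matrix.map_mul]
      exact e5'.trans (Matrix.map_zero _ (map_zero (s.f j3 k hjk)))
    · rw [QForm.map_phi]
      change y2.φ.map _ * x2.ψ.map _ = 0
      rw [← Matrix.map_mul]
      exact e6'.trans (Matrix.map_zero _ (map_zero (s.f j3 k hjk)))
    · rw [md, md, s.single_gf hjk, s.single_gf hjk, s.single_gf hjk, ex, ey, hz1]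
  · obtain ⟨N, x⟩ := x
    obtain ⟨j1, hj1, x', hx'⟩ := s.lift_form i x
    obtain ⟨k, hk, hh⟩ := s.lift_hyp x' (by rw [hx']; exact h)
    refine ⟨k, hj1.trans hk, _, Or.inr (Or.inr ⟨⟨N, x'.map (s.f j1 k hk)⟩, hh, rfl⟩), ?_⟩
    rw [s.single_gf hk, hx']

omit [IsDirectedOrder J] in
theorem span_mono {j k : J} (h : j ≤ k) {r : Forms (R j) ε →₀ ℚ} (hr : r ∈ LSpan (R j) ε) :
    mapDomain (formsMap ε (s.f j k h)) r ∈ LSpan (R k) ε :=
  lspan_map ε (s.f j k h) hr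

omit [IsDirectedOrder J] in
theorem md_gf {i j : J} (h : i ≤ j) (r : Forms (R i) ε →₀ ℚ) :
    mapDomain (formsMap ε (s.g j)) (mapDomain (formsMap ε (s.f i j h)) r) =
      mapDomain (formsMap ε (s.g i)) r := by
  rw [← mapDomain_comp]
  congr 1
  funext z
  exact s.forms_gf h z

omit [IsDirectedOrder J] in
theorem md_ff {i j k : J} (h : i ≤ j) (h' : j ≤ k) (r : Forms (R i) ε →₀ ℚ) :
    mapDomain (formsMap ε (s.f j k h')) (mapDomain (formsMap ε (s.f i j h)) r) =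
      mapDomain (formsMap ε (s.f i k (h.trans h'))) r := by
  rw [← mapDomain_comp]
  congr 1
  funext z
  exact s.forms_ff h h' z

theorem lift_span (i : J) (r : Forms S ε →₀ ℚ) (hr : r ∈ LSpan S ε) :
    ∃ j, ∃ _ : i ≤ j, ∃ r' ∈ LSpan (R j) ε, mapDomain (formsMap ε (s.g j)) r' = r := by
  unfold LSpan at hr
  induction hr using Submodule.span_induction with
  | mem r hr =>
    obtain ⟨j, hj, r', h1, h2⟩ := s.lift_rel i r hr
    exact ⟨j, hj, r', Submodule.subset_span h1, h2⟩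
  | zero => exact ⟨i, le_refl i, 0, Submodule.zero_mem _, mapDomain_zero⟩
  | add a b _ _ ha hb =>
    obtain ⟨j, hj, a', ha1, ha2⟩ := ha
    obtain ⟨k, hk, b', hb1, hb2⟩ := hb
    obtain ⟨l, hl, hl'⟩ := exists_ge_ge j k
    refine ⟨l, hj.trans hl, mapDomain (formsMap ε (s.f j l hl)) a' +
      mapDomain (formsMap ε (s.f k l hl')) b', Submodule.add_mem _ (s.span_mono hl ha1)
      (s.span_mono hl' hb1), ?_⟩
    rw [mapDomain_add, s.md_gf, s.md_gf, ha2, hb2]
  | smul c a _ ha =>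
    obtain ⟨j, hj, a', ha1, ha2⟩ := ha
    exact ⟨j, hj, c • a', Submodule.smul_mem _ c ha1, by rw [mapDomain_smul, ha2]⟩

/-- Elements of the L-group which die in the colimit die at a finite stage. -/
theorem LQ_kill (i : J) (w : LQ (R i) ε) (h : LQ.map ε (s.g i) w = 0) :
    ∃ j, ∃ hj : i ≤ j, LQ.map ε (s.f i j hj) w = 0 := by
  obtain ⟨r, rfl⟩ := Submodule.mkQ_surjective (LSpan (R i) ε) w
  have h1 : mapDomain (formsMap ε (s.g i)) r ∈ LSpan S ε :=
    (Submodule.Quotient.mk_eq_zero _).mp h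
  obtain ⟨j, hj, r', hr', hr2⟩ := s.lift_span i _ h1
  have md : ∀ {A B : Type} (φ : A → B) (x y : A →₀ ℚ),
      mapDomain φ (x - y) = mapDomain φ x - mapDomain φ y := by
    intro A B φ x y
    exact map_sub (Finsupp.lmapDomain ℚ ℚ φ) x y
  have h2 : mapDomain (formsMap ε (s.g j)) (mapDomain (formsMap ε (s.f i j hj)) r - r') = 0 := by
    rw [md, s.md_gf, hr2, sub_self]
  obtain ⟨k, hk, h3⟩ := s.coin_forms (mapDomain (formsMap ε (s.f i j hj)) r - r').support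
  have h4 := coincide _ (formsMap ε (s.f j k hk)) _ h2 h3
  rw [md, s.md_ff, sub_eq_zero] at h4
  refine ⟨k, hj.trans hk, ?_⟩
  apply (Submodule.Quotient.mk_eq_zero _).mpr
  change mapDomain (formsMap ε (s.f i k (hj.trans hk))) r ∈ LSpan (R k) ε
  rw [h4]
  exact s.span_mono hk hr'

end RSys

end Pool.Agent.K3h41.SG
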