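import Pool.Agent.K3h41.SG.Cont

/-!
Continuity of the functors `G ↦ L₀(ℤ[G × T]; ε) ⊗ ℚ`.
-/

namespace Pool.Agent.K3h41.SG

open Finsupp Pool.Agent.Y483 Pool.Agent.Y110.KW CategoryTheory

theorem zg_coeff {G H : Type} [Group G] [Group H] (f : G →* H) (x : MonoidAlgebra ℤ G) :
    (zgMap f x).coeff = mapDomain f x.coeff := by
  obtain ⟨y⟩ := x
  induction y using Finsupp.induction_linear with
  | zero =>
    have : (MonoidAlgebra.ofCoeff (0 : G →₀ ℤ) : MonoidAlgebra ℤ G) = 0 := rfl
    rw [this, map_zero]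
    simp
  | add a b ha hb =>
    have : (MonoidAlgebra.ofCoeff (a + b) : MonoidAlgebra ℤ G) =
      MonoidAlgebra.ofCoeff a + MonoidAlgebra.ofCoeff b := rfl
    rw [this, map_add, MonoidAlgebra.coeff_add, MonoidAlgebra.coeff_add, mapDomain_add, ha, hb]
  | single g n =>
    have : (MonoidAlgebra.ofCoeff (Finsupp.single g n) : MonoidAlgebra ℤ G) =
      MonoidAlgebra.single g n := rfl
    rw [this, zgMap_single]
    change Finsupp.single (f g) n = mapDomain f (Finsupp.single g n)
    rw [mapDomain_single]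

variable {J : Type} [Preorder J] [IsDirectedOrder J] {G : J → Type} [∀ i, Group (G i)] {L : Type}
  [Group L]

/-- The directed system of group rings. -/
noncomputable def rsys (s : Sys J G L) (T : Type) [Group T] :
    RSys J (fun i => MonoidAlgebra ℤ (G i × T)) (MonoidAlgebra ℤ (L × T)) where
  f i j h := zgMap (timesT (s.f i j h) T)
  g i := zgMap (timesT (s.g i) T)
  ff i j k h h' x := by
    apply MonoidAlgebra.coeff_injective
    rw [zg_coeff, zg_coeff, zg_coeff, ← mapDomain_comp]
    congr 1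
    funext p
    exact Prod.ext (s.ff i j k h h' p.1) rfl
  gf i j h x := by
    apply MonoidAlgebra.coeff_injective
    rw [zg_coeff, zg_coeff, zg_coeff, ← mapDomain_comp]
    congr 1
    funext p
    exact Prod.ext (s.gf i j h p.1) rfl
  sur y := by
    obtain ⟨y⟩ := y
    induction y using Finsupp.induction_linear with
    | zero =>
      obtain ⟨i, _, _⟩ := s.sur 1
      exact ⟨i, 0, map_zero _⟩
    | add a b ha hb =>
      obtain ⟨i, x, hx⟩ := ha
      obtain ⟨j, y, hy⟩ := hb
      obtain ⟨k, hk, hk'⟩ := exists_ge_ge i j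
      refine ⟨k, zgMap (timesT (s.f i k hk) T) x + zgMap (timesT (s.f j k hk') T) y, ?_⟩
      have e : (MonoidAlgebra.ofCoeff (a + b) : MonoidAlgebra ℤ (L × T)) =
        MonoidAlgebra.ofCoeff a + MonoidAlgebra.ofCoeff b := rfl
      rw [e, map_add, ← hx, ← hy]
      congr 1
      · apply MonoidAlgebra.coeff_injective
        rw [zg_coeff, zg_coeff, zg_coeff, ← mapDomain_comp]
        congr 1
        funext p
        exact Prod.ext (s.gf i k hk p.1) rfl
      · apply MonoidAlgebra.coeff_injective
        rw [zg_coeff, zg_coeff, zg_coeff, ← mapDomain_comp]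
        congr 1
        funext p
        exact Prod.ext (s.gf j k hk' p.1) rfl
    | single p n =>
      obtain ⟨i, x, hx⟩ := s.sur p.1
      refine ⟨i, MonoidAlgebra.single (x, p.2) n, ?_⟩
      rw [zgMap_single]
      have : timesT (s.g i) T (x, p.2) = p := Prod.ext hx rfl
      rw [this]
      rfl
  inj i x h := by
    classical
    have h0 : mapDomain (timesT (s.g i) T) x.coeff = 0 := by
      rw [← zg_coeff, h]
      rfl
    obtain ⟨j, hj, h1⟩ := s.coin_finset (i := i)
      ((x.coeff.support ×ˢ x.coeff.support).image (fun q => (q.1.1, q.2.1)) |>.filter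
        (fun q => s.g i q.1 = s.g i q.2)) (fun p hp => (Finset.mem_filter.mp hp).2)
    refine ⟨j, hj, ?_⟩
    apply MonoidAlgebra.coeff_injective
    rw [zg_coeff]
    change _ = (0 : _ →₀ ℤ)
    apply coincide _ _ _ h0
    rintro ⟨a, t⟩ ha ⟨b, t'⟩ hb hab
    have e1 : s.g i a = s.g i b := (Prod.ext_iff.mp hab).1
    have e2 : t = t' := (Prod.ext_iff.mp hab).2
    refine Prod.ext ?_ e2
    refine h1 (a, b) (Finset.mem_filter.mpr ⟨Finset.mem_image.mpr ⟨((a, t), (b, t')),
      Finset.mem_product.mpr ⟨ha, hb⟩, rfl⟩, e1⟩)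

/-- A functor is continuous if an element which dies in the colimit of a directed system of groups
dies at a finite stage. -/
def Cont (E : GrpCat.{0} ⥤ ModuleCat.{0} ℚ) : Prop :=
  ∀ (J : Type) [Preorder J] [IsDirectedOrder J] (G : J → Type) [∀ i, Group (G i)] (L : Type)
    [Group L] (s : Sys J G L) (i : J) (w : E.obj (GrpCat.of (G i))), emap E (s.g i) w = 0 →
      ∃ j, ∃ h : i ≤ j, emap E (s.f i j h) w = 0

theorem cont_lgrp (ε : ℤˣ) (T : Type) [Group T] : Cont (lgrp ε T) := by
  intro J _ _ G _ L _ s i w h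
  exact (rsys s T).LQ_kill (ε := ε) i w h

end Pool.Agent.K3h41.SG
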