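import Pool.Agent.K3h41.SG.Shap

/-!
A group `E` generated by a subgroup `G` and elements `t_i`, with a crossed homomorphism which
plays the role of the Bass–Serre tree: the map `H_n(G; ℚ) → H_n(E; ℚ)` is injective if the rational
homology of the edge groups is zero in degree `n`.
-/

namespace Pool.Agent.K3h41.SG

open Finsupp Pool.Agent.Y483

/-- A group `E` with a homomorphism `j` from `G`, edge groups `b i : K → E`, stable elements `t i`,
and a crossed homomorphism `D` of `E` to the free module on the edges. -/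
structure Spl (E G K I : Type) [Group E] [Group G] [Group K] where
  j : G →* E
  b : I → K →* E
  t : I → E
  hj : Function.Injective j
  hb : ∀ i, Function.Injective (b i)
  hbj : ∀ i k, b i k ∈ j.range
  hbt : ∀ i k, (t i)⁻¹ * b i k * t i ∈ j.range
  gen : ∀ S : Subgroup E, j.range ≤ S → (∀ i, t i ∈ S) → S = ⊤
  D : E → (Σ i, E ⧸ (b i).range) →₀ ℚ
  hD : ∀ g h, D (g * h) = D g + permRep (MulAction.toPermHom E (Σ i, E ⧸ (b i).range)) g (D h)
  hDj : ∀ g, D (j g) = 0
  hDt : ∀ i, D (t i) = single ⟨i, ((1 : E) : E ⧸ (b i).range)⟩ 1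

namespace Spl

variable {E G K I : Type} [Group E] [Group G] [Group K] (s : Spl E G K I)

/-- The edges. -/
abbrev Ed : Type := Σ i, E ⧸ (s.b i).range

/-- The vertices. -/
abbrev Vt : Type := E ⧸ s.j.range

/-- The action on the edges. -/
abbrev σE : E →* Equiv.Perm s.Ed := MulAction.toPermHom E s.Ed

/-- The action on the vertices. -/
abbrev σV : E →* Equiv.Perm s.Vt := MulAction.toPermHom E s.Vt

theorem σE_mk (g : E) (i : I) (h : E) :
    s.σE g ⟨i, (h : E ⧸ (s.b i).range)⟩ = ⟨i, ((g * h : E) : E ⧸ (s.b i).range)⟩ := rfl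

theorem σV_mk (g h : E) : s.σV g (h : E ⧸ s.j.range) = ((g * h : E) : E ⧸ s.j.range) := rfl

/-- The initial vertex of an edge. -/
def hd (e : s.Ed) : s.Vt :=
  Quotient.liftOn' e.2 (fun g : E => (g : E ⧸ s.j.range)) (by
    intro a b hab
    rw [QuotientGroup.leftRel_apply] at hab
    obtain ⟨k, hk⟩ := hab
    rw [QuotientGroup.eq, ← hk]
    exact s.hbj _ _)

/-- The terminal vertex of an edge. -/
def tl (e : s.Ed) : s.Vt :=
  Quotient.liftOn' e.2 (fun g : E => ((g * s.t e.1 : E) : E ⧸ s.j.range)) (by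
    intro a b hab
    rw [QuotientGroup.leftRel_apply] at hab
    obtain ⟨k, hk⟩ := hab
    rw [QuotientGroup.eq]
    have h1 : (a * s.t e.1)⁻¹ * (b * s.t e.1) = (s.t e.1)⁻¹ * (a⁻¹ * b) * s.t e.1 := by group
    rw [h1, ← hk]
    exact s.hbt _ _)

theorem hd_mk (i : I) (g : E) : s.hd ⟨i, (g : E ⧸ (s.b i).range)⟩ = (g : E ⧸ s.j.range) := rfl

theorem tl_mk (i : I) (g : E) :
    s.tl ⟨i, (g : E ⧸ (s.b i).range)⟩ = ((g * s.t i : E) : E ⧸ s.j.range) := rfl

/-- The boundary of an edge. -/
noncomputable def bdy : (s.Ed →₀ ℚ) →ₗ[ℚ] (s.Vt →₀ ℚ) :=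
  lsum ℚ fun e => lsingle (s.tl e) - lsingle (s.hd e)

theorem bdy_single (e : s.Ed) (r : ℚ) :
    s.bdy (single e r) = single (s.tl e) r - single (s.hd e) r := by
  unfold bdy
  rw [Finsupp.lsum_single]
  rfl

theorem bdy_equiv (g : E) (m : s.Ed →₀ ℚ) :
    s.bdy (permRep s.σE g m) = permRep s.σV g (s.bdy m) := by
  have h : s.bdy ∘ₗ (permRep s.σE g) = (permRep s.σV g) ∘ₗ s.bdy := by
    apply lhom_ext'
    rintro ⟨i, q⟩
    apply LinearMap.ext
    intro r
    induction q using QuotientGroup.induction_on with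
    | H h =>
      simp only [LinearMap.comp_apply, lsingle_apply]
      rw [permRep_single, σE_mk, bdy_single, bdy_single, map_sub, permRep_single, permRep_single,
        tl_mk, hd_mk, tl_mk, hd_mk, σV_mk, σV_mk, mul_assoc]
  exact DFunLike.congr_fun h m

theorem D_one : s.D 1 = 0 := by
  have := s.hDj 1
  rwa [map_one] at this

theorem D_inv (g : E) : s.D g⁻¹ = -permRep s.σE g⁻¹ (s.D g) := by
  have h := s.hD g⁻¹ g
  rw [inv_mul_cancel, D_one] at h
  exact eq_neg_of_add_eq_zero_left h.symm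

theorem bdy_D (g : E) :
    s.bdy (s.D g) = single ((g : E) : E ⧸ s.j.range) 1 - single ((1 : E) : E ⧸ s.j.range) 1 := by
  let S : Subgroup E :=
    { carrier := {g | s.bdy (s.D g) =
        single ((g : E) : E ⧸ s.j.range) 1 - single ((1 : E) : E ⧸ s.j.range) 1}
      mul_mem' := by
        intro a b ha hb
        simp only [Set.mem_ofPred_eq] at ha hb ⊢
        rw [s.hD, map_add]
        have e : s.bdy (permRep (MulAction.toPermHom E (Σ i, E ⧸ (s.b i).range)) a (s.D b)) =
          permRep s.σV a (s.bdy (s.D b)) := s.bdy_equiv a (s.D b)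
        rw [e, ha, hb, map_sub, permRep_single, permRep_single, σV_mk, σV_mk, mul_one]
        abel
      one_mem' := by
        simp only [Set.mem_ofPred_eq]
        rw [D_one, map_zero, sub_self]
      inv_mem' := by
        intro a ha
        simp only [Set.mem_ofPred_eq] at ha ⊢
        rw [D_inv, map_neg, bdy_equiv, ha, map_sub, permRep_single, permRep_single, σV_mk, σV_mk,
          inv_mul_cancel, mul_one]
        abel }
  have hS : S = ⊤ := by
    apply s.gen
    · rintro _ ⟨k, rfl⟩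
      change s.bdy (s.D (s.j k)) = _
      rw [s.hDj, map_zero]
      have : ((s.j k : E) : E ⧸ s.j.range) = ((1 : E) : E ⧸ s.j.range) := by
        rw [eq_comm, QuotientGroup.eq]
        exact ⟨k, by simp⟩
      rw [this, sub_self]
    · intro i
      change s.bdy (s.D (s.t i)) = _
      rw [s.hDt, bdy_single, tl_mk, hd_mk, one_mul]
  have : g ∈ S := by rw [hS]; exact Subgroup.mem_top g
  exact this

/-- The function on the vertices given by `D`. -/
noncomputable def Dv (v : s.Vt) : s.Ed →₀ ℚ :=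
  Quotient.liftOn' v s.D (by
    intro a b hab
    rw [QuotientGroup.leftRel_apply] at hab
    obtain ⟨k, hk⟩ := hab
    have : b = a * s.j k := by rw [hk]; group
    rw [this, s.hD, s.hDj, map_zero, add_zero])

theorem Dv_mk (g : E) : s.Dv (g : E ⧸ s.j.range) = s.D g := rfl

/-- The linear extension. -/
noncomputable def DL : (s.Vt →₀ ℚ) →ₗ[ℚ] (s.Ed →₀ ℚ) := linearCombination ℚ s.Dv

theorem DL_single (v : s.Vt) (r : ℚ) : s.DL (single v r) = r • s.Dv v := by
  unfold DL
  rw [linearCombination_single]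

theorem DL_bdy (m : s.Ed →₀ ℚ) : s.DL (s.bdy m) = m := by
  have h : s.DL ∘ₗ s.bdy = LinearMap.id := by
    apply lhom_ext'
    rintro ⟨i, q⟩
    apply LinearMap.ext
    intro r
    induction q using QuotientGroup.induction_on with
    | H h =>
      simp only [LinearMap.comp_apply, lsingle_apply, LinearMap.id_apply]
      rw [bdy_single, map_sub, DL_single, DL_single, tl_mk, hd_mk, Dv_mk, Dv_mk, s.hD, s.hDt,
        smul_add, add_sub_cancel_left]
      have e : permRep (MulAction.toPermHom E (Σ i, E ⧸ (s.b i).range)) h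
          (single ⟨i, ((1 : E) : E ⧸ (s.b i).range)⟩ 1) =
          single ⟨i, ((h * 1 : E) : E ⧸ (s.b i).range)⟩ 1 := permRep_single _ _ _ _
      rw [e, mul_one, smul_single, smul_eq_mul, mul_one]
  exact DFunLike.congr_fun h m

theorem bdy_DL (m : s.Vt →₀ ℚ) :
    s.bdy (s.DL m) = m - single ((1 : E) : E ⧸ s.j.range) (sumC s.Vt m) := by
  have h : s.bdy ∘ₗ s.DL = LinearMap.id -
      (lsingle ((1 : E) : E ⧸ s.j.range) : ℚ →ₗ[ℚ] (s.Vt →₀ ℚ)) ∘ₗ (sumC s.Vt) := by
    apply lhom_ext'
    intro v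
    apply LinearMap.ext
    intro r
    induction v using QuotientGroup.induction_on with
    | H h =>
      simp only [LinearMap.comp_apply, lsingle_apply, LinearMap.id_apply, LinearMap.sub_apply]
      rw [DL_single, map_smul, Dv_mk, bdy_D, sumC_single, smul_sub, smul_single, smul_single,
        smul_eq_mul, mul_one]
  exact DFunLike.congr_fun h m

/-! ### decomposition of the edges -/

/-- The inclusion of the edges of type `i`. -/
noncomputable def inE (i : I) : ((E ⧸ (s.b i).range) →₀ ℚ) →ₗ[ℚ] (s.Ed →₀ ℚ) :=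
  Finsupp.lmapDomain ℚ ℚ (fun q => (⟨i, q⟩ : s.Ed))

open Classical in
/-- The projection to the edges of type `i`. -/
noncomputable def prE (i : I) : (s.Ed →₀ ℚ) →ₗ[ℚ] ((E ⧸ (s.b i).range) →₀ ℚ) :=
  lsum ℚ fun e => if h : e.1 = i then lsingle (h ▸ e.2) else 0

theorem inE_single (i : I) (q : E ⧸ (s.b i).range) (r : ℚ) :
    s.inE i (single q r) = single ⟨i, q⟩ r := by
  unfold inE
  rw [Finsupp.lmapDomain_apply, mapDomain_single]

theorem prE_same (i : I) (q : E ⧸ (s.b i).range) (r : ℚ) :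
    s.prE i (single ⟨i, q⟩ r) = single q r := by
  classical
  unfold prE
  rw [Finsupp.lsum_single, dif_pos rfl]
  rfl

theorem prE_ne {i i' : I} (h : i' ≠ i) (q : E ⧸ (s.b i').range) (r : ℚ) :
    s.prE i (single ⟨i', q⟩ r) = 0 := by
  classical
  unfold prE
  rw [Finsupp.lsum_single, dif_neg h]
  rfl

/-- The action on the edges of type `i`. -/
abbrev σI (i : I) : E →* Equiv.Perm (E ⧸ (s.b i).range) := MulAction.toPermHom E _

theorem prE_equiv (i : I) (g : E) (m : s.Ed →₀ ℚ) :
    s.prE i (permRep s.σE g m) = permRep (s.σI i) g (s.prE i m) := by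
  have h : s.prE i ∘ₗ (permRep s.σE g) = (permRep (s.σI i) g) ∘ₗ s.prE i := by
    apply lhom_ext'
    rintro ⟨i', q⟩
    apply LinearMap.ext
    intro r
    induction q using QuotientGroup.induction_on with
    | H h =>
      simp only [LinearMap.comp_apply, lsingle_apply]
      rw [permRep_single, σE_mk]
      by_cases hi : i' = i
      · subst hi
        rw [prE_same, prE_same, permRep_single]
        rfl
      · rw [prE_ne s hi, prE_ne s hi, map_zero]
  exact DFunLike.congr_fun h m

theorem inE_equiv (i : I) (g : E) (m : (E ⧸ (s.b i).range) →₀ ℚ) :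
    s.inE i (permRep (s.σI i) g m) = permRep s.σE g (s.inE i m) := by
  have h : s.inE i ∘ₗ (permRep (s.σI i) g) = (permRep s.σE g) ∘ₗ s.inE i := by
    apply lhom_ext'
    intro q
    apply LinearMap.ext
    intro r
    simp only [LinearMap.comp_apply, lsingle_apply]
    rw [permRep_single, inE_single, inE_single, permRep_single]
    rfl
  exact DFunLike.congr_fun h m

theorem decomp (n : ℕ) (w : T n E (s.Ed →₀ ℚ)) : ∃ S : Finset I, ∀ S' : Finset I, S ⊆ S' →
    w = ∑ i ∈ S', mp n (MonoidHom.id E) (s.inE i ∘ₗ s.prE i) w := by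
  classical
  induction w using Finsupp.induction_linear with
  | zero => exact ⟨∅, fun S' _ => by simp⟩
  | add a b ha hb =>
    obtain ⟨A, hA⟩ := ha
    obtain ⟨B, hB⟩ := hb
    refine ⟨A ∪ B, fun S' hS' => ?_⟩
    simp only [map_add, Finset.sum_add_distrib]
    rw [← hA S' (Finset.union_subset_left hS'), ← hB S' (Finset.union_subset_right hS')]
  | single y m =>
    induction m using Finsupp.induction_linear with
    | zero => exact ⟨∅, fun S' _ => by simp⟩
    | add a b ha hb =>
      obtain ⟨A, hA⟩ := ha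
      obtain ⟨B, hB⟩ := hb
      refine ⟨A ∪ B, fun S' hS' => ?_⟩
      rw [Finsupp.single_add]
      simp only [map_add, Finset.sum_add_distrib]
      rw [← hA S' (Finset.union_subset_left hS'), ← hB S' (Finset.union_subset_right hS')]
    | single e r =>
      obtain ⟨i, q⟩ := e
      refine ⟨{i}, fun S' hS' => ?_⟩
      rw [Finset.sum_eq_single_of_mem i (hS' (Finset.mem_singleton_self i))]
      · rw [mp_single, LinearMap.comp_apply, prE_same, inE_single]
        rfl
      · intro i' _ hi'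
        rw [mp_single, LinearMap.comp_apply, prE_ne s (Ne.symm hi'), map_zero, Finsupp.single_zero]

/-- Cycles with coefficients in the module of the edges are boundaries if the homology of the
edge groups is zero. -/
theorem edge_acyclic (n : ℕ)
    (hK : ∀ z : T n K ℚ, Cyc (tQ K) n z → z ∈ LinearMap.range (dd (tQ K) n))
    (w : T n E (s.Ed →₀ ℚ)) (hw : Cyc (permRep s.σE) n w) :
    w ∈ LinearMap.range (dd (permRep s.σE) n) := by
  obtain ⟨S, hS⟩ := s.decomp n w
  rw [hS S (le_refl _)]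
  apply Submodule.sum_mem
  intro i _
  have h1 : Cyc (permRep (s.σI i)) n (mp n (MonoidHom.id E) (s.prE i) w) :=
    cyc_mp (ρ := permRep s.σE) (MonoidHom.id E) (s.prE i) (fun g m => s.prE_equiv i g m) n w hw
  have hex : ∀ h, s.σI i h ((1 : E) : E ⧸ (s.b i).range) = ((1 : E) : E ⧸ (s.b i).range) →
      ∃ k, s.b i k = h := by
    intro h hh
    have h2 : ((h * 1 : E) : E ⧸ (s.b i).range) = ((1 : E) : E ⧸ (s.b i).range) := hh
    rw [eq_comm, QuotientGroup.eq] at h2
    obtain ⟨k, hk⟩ := h2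
    exact ⟨k, by rw [hk]; group⟩
  have hstab : ∀ k, s.σI i (s.b i k) ((1 : E) : E ⧸ (s.b i).range) =
      ((1 : E) : E ⧸ (s.b i).range) := by
    intro k
    change ((s.b i k * 1 : E) : E ⧸ (s.b i).range) = _
    rw [eq_comm, QuotientGroup.eq]
    exact ⟨k, by group⟩
  have htr : ∀ a, ∃ h, s.σI i h ((1 : E) : E ⧸ (s.b i).range) = a := by
    intro a
    induction a using QuotientGroup.induction_on with
    | H h => exact ⟨h, by change ((h * 1 : E) : E ⧸ (s.b i).range) = _; rw [mul_one]⟩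
  obtain ⟨y, hy, hy2⟩ := shapiro (s.σI i) ((1 : E) : E ⧸ (s.b i).range) htr (s.b i) (s.hb i)
    hstab hex (tQ K) (fun _ => rfl) n _ h1
  have h3 := hK y hy
  have h4 : mp n (s.b i) (lsingle ((1 : E) : E ⧸ (s.b i).range)) y ∈
      LinearMap.range (dd (permRep (s.σI i)) n) :=
    range_mp (ρ := tQ K) (τ := permRep (s.σI i)) (s.b i) (lsingle _) (fun g m => by
      rw [lsingle_apply, lsingle_apply, permRep_single, hstab]; rfl) n y h3
  have h5 : mp n (MonoidHom.id E) (s.prE i) w ∈ LinearMap.range (dd (permRep (s.σI i)) n) := by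
    have := Submodule.add_mem _ hy2 h4
    rwa [sub_add_cancel] at this
  have h6 := range_mp (ρ := permRep (s.σI i)) (τ := permRep s.σE) (MonoidHom.id E) (s.inE i)
    (fun g m => s.inE_equiv i g m) n _ h5
  rw [mp_mp] at h6
  exact h6

/-- The map on homology is injective where the homology of the edge groups vanishes. -/
theorem inj_chain (n : ℕ)
    (hK : ∀ z : T n K ℚ, Cyc (tQ K) n z → z ∈ LinearMap.range (dd (tQ K) n))
    (x : T n G ℚ) (hx : Cyc (tQ G) n x)
    (h : mp n s.j LinearMap.id x ∈ LinearMap.range (dd (tQ E) n)) :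
    x ∈ LinearMap.range (dd (tQ G) n) := by
  obtain ⟨y, hy⟩ := h
  have hfix : ∀ k, s.σV (s.j k) ((1 : E) : E ⧸ s.j.range) = ((1 : E) : E ⧸ s.j.range) := by
    intro k
    change ((s.j k * 1 : E) : E ⧸ s.j.range) = _
    rw [eq_comm, QuotientGroup.eq]
    exact ⟨k, by group⟩
  have hex : ∀ h, s.σV h ((1 : E) : E ⧸ s.j.range) = ((1 : E) : E ⧸ s.j.range) →
      ∃ k, s.j k = h := by
    intro h hh
    have h2 : ((h * 1 : E) : E ⧸ s.j.range) = ((1 : E) : E ⧸ s.j.range) := hh
    rw [eq_comm, QuotientGroup.eq] at h2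
    obtain ⟨k, hk⟩ := h2
    exact ⟨k, by rw [hk]; group⟩
  have htr : ∀ a, ∃ h, s.σV h ((1 : E) : E ⧸ s.j.range) = a := by
    intro a
    induction a using QuotientGroup.induction_on with
    | H h => exact ⟨h, by change ((h * 1 : E) : E ⧸ s.j.range) = _; rw [mul_one]⟩
  let v₀ : s.Vt := ((1 : E) : E ⧸ s.j.range)
  let y' : T (n + 1) E (s.Vt →₀ ℚ) := mp (n + 1) (MonoidHom.id E) (lsingle v₀) y
  let w : T n E (s.Vt →₀ ℚ) := mp n s.j (lsingle v₀) x - dd (permRep s.σV) n y'
  have hlj : ∀ (g : G) (m : ℚ), (lsingle v₀ : ℚ →ₗ[ℚ] (s.Vt →₀ ℚ)) (tQ G g m) =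
      permRep s.σV (s.j g) ((lsingle v₀ : ℚ →ₗ[ℚ] (s.Vt →₀ ℚ)) m) := by
    intro g m
    rw [lsingle_apply, lsingle_apply, permRep_single, hfix]
    rfl
  have hwc : Cyc (permRep s.σV) n w := by
    have h1 : Cyc (permRep s.σV) n (mp n s.j (lsingle v₀) x) :=
      cyc_mp (ρ := tQ G) s.j (lsingle v₀) hlj n x hx
    have h2 : Cyc (permRep s.σV) n (dd (permRep s.σV) n y') := cyc_dd _ _ _
    cases n with
    | zero => exact Cyc.zero _ _
    | succ n =>
      rw [cyc_succ] at *
      rw [map_sub, h1, h2, sub_zero]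
  have hsum : mp n (MonoidHom.id E) (sumC s.Vt) w = 0 := by
    have e1 : mp n (MonoidHom.id E) (sumC s.Vt) (dd (permRep s.σV) n y') = dd (tQ E) n y := by
      rw [← dd_mp (ρ := permRep s.σV) (τ := tQ E) (MonoidHom.id E) (sumC s.Vt)
        (fun g m => sumC_permRep s.σV g m)]
      congr 1
      change mp (n + 1) _ _ (mp (n + 1) _ _ y) = y
      rw [mp_mp]
      have e2 : (sumC s.Vt) ∘ₗ (lsingle v₀) = (LinearMap.id : ℚ →ₗ[ℚ] ℚ) := by
        apply LinearMap.ext
        intro r
        rw [LinearMap.comp_apply, lsingle_apply, sumC_single]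
        rfl
      rw [e2]
      exact mp_id (n + 1) y
    have e3 : mp n (MonoidHom.id E) (sumC s.Vt) (mp n s.j (lsingle v₀) x) =
        mp n s.j LinearMap.id x := by
      rw [mp_mp]
      congr 2
      apply LinearMap.ext
      intro r
      rw [LinearMap.comp_apply, lsingle_apply, sumC_single]
      rfl
    change mp n (MonoidHom.id E) (sumC s.Vt) (mp n s.j (lsingle v₀) x -
      dd (permRep s.σV) n y') = 0
    rw [map_sub, e1, e3, hy, sub_self]
  let w' : T n E (s.Ed →₀ ℚ) := mp n (MonoidHom.id E) s.DL w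
  have hw' : mp n (MonoidHom.id E) s.bdy w' = w := by
    change mp n _ _ (mp n _ _ w) = w
    rw [mp_mp]
    have e1 : s.bdy ∘ₗ s.DL = LinearMap.id -
        (lsingle v₀ : ℚ →ₗ[ℚ] (s.Vt →₀ ℚ)) ∘ₗ (sumC s.Vt) := by
      apply LinearMap.ext
      intro m
      exact s.bdy_DL m
    rw [e1]
    have e2 : ∀ (f g : (s.Vt →₀ ℚ) →ₗ[ℚ] (s.Vt →₀ ℚ)) (u : T n E (s.Vt →₀ ℚ)),
        mp n (⇑(MonoidHom.id E) ∘ ⇑(MonoidHom.id E)) (f - g) u =
          mp n (MonoidHom.id E) f u - mp n (MonoidHom.id E) g u := by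
      intro f g u
      have : mp n (⇑(MonoidHom.id E) ∘ ⇑(MonoidHom.id E)) (f - g) =
          mp n (MonoidHom.id E) f - mp n (MonoidHom.id E) g := by
        apply T_ext
        intro a m
        rw [LinearMap.sub_apply, mp_single, mp_single, mp_single, LinearMap.sub_apply,
          Finsupp.single_sub]
        rfl
      rw [this]
      rfl
    rw [e2]
    have e3 : mp n (MonoidHom.id E) (LinearMap.id : (s.Vt →₀ ℚ) →ₗ[ℚ] _) w = w := mp_id n w
    have e4 : mp n (MonoidHom.id E) ((lsingle v₀ : ℚ →ₗ[ℚ] (s.Vt →₀ ℚ)) ∘ₗ (sumC s.Vt)) w = 0 := by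
      have := mp_mp n (MonoidHom.id E) (sumC s.Vt) (MonoidHom.id E)
        (lsingle v₀ : ℚ →ₗ[ℚ] (s.Vt →₀ ℚ)) w
      rw [hsum, map_zero] at this
      exact this.symm
    rw [e3, e4, sub_zero]
  have hinjb : Function.Injective (mp (M := s.Ed →₀ ℚ) n (MonoidHom.id E) s.bdy) := by
    apply mp_injective n (fun a b h => h)
    intro a b hab
    have := congrArg s.DL hab
    rwa [DL_bdy, DL_bdy] at this
  have hwc' : Cyc (permRep s.σE) n w' := by
    cases n with
    | zero => exact Cyc.zero _ _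
    | succ n =>
      rw [cyc_succ] at *
      have hinjb' : Function.Injective (mp (M := s.Ed →₀ ℚ) n (MonoidHom.id E) s.bdy) := by
        apply mp_injective n (fun a b h => h)
        intro a b hab
        have := congrArg s.DL hab
        rwa [DL_bdy, DL_bdy] at this
      apply hinjb'
      rw [← dd_mp (ρ := permRep s.σE) (τ := permRep s.σV) (MonoidHom.id E) s.bdy
        (fun g m => s.bdy_equiv g m), hw', hwc, map_zero]
  have h1 := s.edge_acyclic n hK w' hwc'
  have h2 := range_mp (ρ := permRep s.σE) (τ := permRep s.σV) (MonoidHom.id E) s.bdy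
    (fun g m => s.bdy_equiv g m) n _ h1
  rw [hw'] at h2
  have h3 : mp n s.j (lsingle v₀) x ∈ LinearMap.range (dd (permRep s.σV) n) := by
    have h4 : dd (permRep s.σV) n y' ∈ LinearMap.range (dd (permRep s.σV) n) := ⟨y', rfl⟩
    have h5 := Submodule.add_mem _ h2 h4
    have e : w + dd (permRep s.σV) n y' = mp n s.j (lsingle v₀) x := sub_add_cancel _ _
    rwa [e] at h5
  exact shap_inj s.σV v₀ htr s.j s.hj hfix hex n x h3

theorem inj_hq (n : ℕ)
    (hK : ∀ z : T n K ℚ, Cyc (tQ K) n z → z ∈ LinearMap.range (dd (tQ K) n)) :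
    Function.Injective (hqMap s.j n) := by
  rw [injective_iff_map_eq_zero]
  intro x hx
  obtain ⟨z, hz⟩ := exists_rpr (Rep.trivial ℚ G ℚ) n x
  have h1 := (hz.hq s.j).eq_zero_iff.mp hx
  exact hz.eq_zero_iff.mpr (s.inj_chain n hK z hz.cyc h1)

end Spl

end Pool.Agent.K3h41.SG
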