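import Pool.Agent.K3h41.SG.Hnn
import Pool.Agent.Y483.FRRMain

/-!
The base group embeds in a multiple HNN extension, and rational homology is embedded as well when
the edge groups are free.
-/

namespace Pool.Agent.K3h41.SG

open Finsupp Pool.Agent.Y483

section Perm

variable (G : Type) [Group G]

/-- The action of `G` on `G × (G × ℕ)` by right translations of the first factor. -/
def ract : G →* Equiv.Perm (G × (G × ℕ)) where
  toFun g := (Equiv.mulRight g⁻¹).prodCongr (Equiv.refl _)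
  map_one' := by
    ext p <;> simp
  map_mul' g h := by
    apply Equiv.ext
    rintro ⟨x, w⟩
    simp [mul_assoc]

variable {G}

theorem ract_apply (g x : G) (w : G × ℕ) : ract G g (x, w) = (x * g⁻¹, w) := rfl

theorem ract_injective : Function.Injective (ract G) := by
  intro g h hgh
  have := congrArg (fun e => (e (1, (1, 0))).1) hgh
  simp only [ract_apply, one_mul, inv_inj] at this
  exact this

/-- The number of cosets does not matter after multiplication with `G × ℕ`. -/
theorem cosets_equiv (R : Subgroup G) : Nonempty (((G ⧸ R) × (G × ℕ)) ≃ (G × ℕ)) := by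
  apply Cardinal.eq.mp
  rw [Cardinal.mk_prod, Cardinal.lift_id, Cardinal.lift_id]
  apply Cardinal.mul_eq_right
  · rw [Cardinal.mk_prod, Cardinal.lift_id, Cardinal.lift_id, Cardinal.mk_nat]
    calc Cardinal.aleph0 = 1 * Cardinal.aleph0 := (one_mul _).symm
      _ ≤ Cardinal.mk G * Cardinal.aleph0 := by
        gcongr
        exact Cardinal.one_le_iff_ne_zero.mpr (Cardinal.mk_ne_zero G)
  · calc Cardinal.mk (G ⧸ R) ≤ Cardinal.mk G :=
        Cardinal.mk_le_of_surjective QuotientGroup.mk_surjective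
      _ ≤ Cardinal.mk (G × ℕ) := Cardinal.mk_le_of_injective (f := fun x => (x, 0))
        (fun a b h => (Prod.ext_iff.mp h).1)
  · exact Cardinal.mk_ne_zero _

variable {K : Type} [Group K]

theorem exists_chart (u : K →* G) (hu : Function.Injective u) :
    ∃ A : (G × ℕ) × K ≃ G × (G × ℕ), ∀ w k l, A (w, k * l⁻¹) = ract G (u l) (A (w, k)) := by
  obtain ⟨c⟩ := cosets_equiv u.range
  have hb : Function.Bijective (fun p : (G ⧸ u.range) × K => p.1.out * u p.2) := by
    constructor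
    · rintro ⟨q, k⟩ ⟨q', k'⟩ h
      simp only at h
      have h1 : q = q' := by
        rw [← QuotientGroup.out_eq' q, ← QuotientGroup.out_eq' q', QuotientGroup.eq]
        refine ⟨k * k'⁻¹, ?_⟩
        rw [map_mul, map_inv, eq_inv_mul_iff_mul_eq, ← mul_assoc, h]
        group
      subst h1
      have h2 : k = k' := hu (mul_left_cancel h)
      rw [h2]
    · intro x
      have h1 : ((x : G ⧸ u.range).out)⁻¹ * x ∈ u.range := by
        rw [← QuotientGroup.eq, QuotientGroup.out_eq']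
      obtain ⟨k, hk⟩ := h1
      refine ⟨((x : G ⧸ u.range), k), ?_⟩
      change (x : G ⧸ u.range).out * u k = x
      rw [hk]
      group
  let B : (G ⧸ u.range) × K ≃ G := Equiv.ofBijective _ hb
  let A : (G × ℕ) × K ≃ G × (G × ℕ) :=
    ((c.symm.prodCongr (Equiv.refl K)).trans (Equiv.prodAssoc _ _ _)).trans
      (((Equiv.refl (G ⧸ u.range)).prodCongr (Equiv.prodComm (G × ℕ) K)).trans
        ((Equiv.prodAssoc _ _ _).symm.trans (B.prodCongr (Equiv.refl (G × ℕ)))))
  refine ⟨A, ?_⟩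
  intro w k l
  have hA : ∀ k, A (w, k) = (((c.symm w).1).out * u k, (c.symm w).2) := fun k => rfl
  rw [hA, hA, ract_apply, map_mul, map_inv, mul_assoc]

theorem exists_conj (u v : K →* G) (hu : Function.Injective u) (hv : Function.Injective v) :
    ∃ τ : Equiv.Perm (G × (G × ℕ)), ∀ k, τ * ract G (u k) = ract G (v k) * τ := by
  obtain ⟨A, hA⟩ := exists_chart u hu
  obtain ⟨B, hB⟩ := exists_chart v hv
  refine ⟨A.symm.trans B, fun k => ?_⟩
  apply Equiv.ext
  intro ω
  obtain ⟨⟨w, l⟩, rfl⟩ := A.surjective ω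
  rw [Equiv.Perm.mul_apply, Equiv.Perm.mul_apply, ← hA, Equiv.trans_apply, Equiv.trans_apply,
    Equiv.symm_apply_apply, Equiv.symm_apply_apply, hB]

variable {I : Type} {u v : I → K →* G}

theorem of_injective (hu : ∀ i, Function.Injective (u i)) (hv : ∀ i, Function.Injective (v i)) :
    Function.Injective (Hnn.of u v) := by
  choose τ hτ using fun i => exists_conj (u i) (v i) (hu i) (hv i)
  intro g h hgh
  have h1 := congrArg (Hnn.lift (ract G) τ hτ) hgh
  rw [Hnn.lift_of, Hnn.lift_of] at h1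
  exact ract_injective h1

end Perm

/-! ### surjectivity, and the homology of free groups -/

namespace Spl

variable {E G K I : Type} [Group E] [Group G] [Group K] (s : Spl E G K I)

theorem vfix (k : G) : s.σV (s.j k) ((1 : E) : E ⧸ s.j.range) = ((1 : E) : E ⧸ s.j.range) := by
  change ((s.j k * 1 : E) : E ⧸ s.j.range) = _
  rw [eq_comm, QuotientGroup.eq]
  exact ⟨k, by group⟩

theorem vex (h : E) (hh : s.σV h ((1 : E) : E ⧸ s.j.range) = ((1 : E) : E ⧸ s.j.range)) :
    ∃ k, s.j k = h := by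
  have h2 : ((h * 1 : E) : E ⧸ s.j.range) = ((1 : E) : E ⧸ s.j.range) := hh
  rw [eq_comm, QuotientGroup.eq] at h2
  obtain ⟨k, hk⟩ := h2
  exact ⟨k, by rw [hk]; group⟩

theorem vtr (a : s.Vt) : ∃ h, s.σV h ((1 : E) : E ⧸ s.j.range) = a := by
  induction a using QuotientGroup.induction_on with
  | H h => exact ⟨h, by change ((h * 1 : E) : E ⧸ s.j.range) = _; rw [mul_one]⟩

theorem lift_edge (n : ℕ) (w : T n E (s.Vt →₀ ℚ)) (hwc : Cyc (permRep s.σV) n w)
    (hsum : mp n (MonoidHom.id E) (sumC s.Vt) w = 0) :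
    ∃ w' : T n E (s.Ed →₀ ℚ), Cyc (permRep s.σE) n w' ∧ mp n (MonoidHom.id E) s.bdy w' = w := by
  let v₀ : s.Vt := ((1 : E) : E ⧸ s.j.range)
  let w' : T n E (s.Ed →₀ ℚ) := mp n (MonoidHom.id E) s.DL w
  have hw' : mp n (MonoidHom.id E) s.bdy w' = w := by
    change mp n _ _ (mp n _ _ w) = w
    rw [mp_mp]
    have e1 : s.bdy ∘ₗ s.DL = LinearMap.id -
        (lsingle v₀ : ℚ →ₗ[ℚ] (s.Vt →₀ ℚ)) ∘ₗ (sumC s.Vt) := by
      apply LinearMap.ext
      intro m
      exact s.bdy_DL m
    rw [e1]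
    have e2 : ∀ (f g : (s.Vt →₀ ℚ) →ₗ[ℚ] (s.Vt →₀ ℚ)) (u : T n E (s.Vt →₀ ℚ)),
        mp n (⇑(MonoidHom.id E) ∘ ⇑(MonoidHom.id E)) (f - g) u =
          mp n (MonoidHom.id E) f u - mp n (MonoidHom.id E) g u := by
      intro f g u
      have : mp n (⇑(MonoidHom.id E) ∘ ⇑(MonoidHom.id E)) (f - g) =
          mp n (MonoidHom.id E) f - mp n (MonoidHom.id E) g := by
        apply T_ext
        intro a m
        rw [LinearMap.sub_apply, mp_single, mp_single, mp_single, LinearMap.sub_apply,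
          Finsupp.single_sub]
        rfl
      rw [this]
      rfl
    rw [e2]
    have e3 : mp n (MonoidHom.id E) (LinearMap.id : (s.Vt →₀ ℚ) →ₗ[ℚ] _) w = w := mp_id n w
    have e4 : mp n (MonoidHom.id E) ((lsingle v₀ : ℚ →ₗ[ℚ] (s.Vt →₀ ℚ)) ∘ₗ (sumC s.Vt)) w = 0 := by
      have := mp_mp n (MonoidHom.id E) (sumC s.Vt) (MonoidHom.id E)
        (lsingle v₀ : ℚ →ₗ[ℚ] (s.Vt →₀ ℚ)) w
      rw [hsum, map_zero] at this
      exact this.symm
    rw [e3, e4, sub_zero]
  refine ⟨w', ?_, hw'⟩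
  cases n with
  | zero => exact Cyc.zero _ _
  | succ n =>
    rw [cyc_succ] at *
    have hinjb' : Function.Injective (mp (M := s.Ed →₀ ℚ) n (MonoidHom.id E) s.bdy) := by
      apply mp_injective n (fun a b h => h)
      intro a b hab
      have := congrArg s.DL hab
      rwa [DL_bdy, DL_bdy] at this
    apply hinjb'
    rw [← dd_mp (ρ := permRep s.σE) (τ := permRep s.σV) (MonoidHom.id E) s.bdy
      (fun g m => s.bdy_equiv g m), hw', hwc, map_zero]

/-- The map on homology is surjective one degree above. -/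
theorem surj_chain (n : ℕ)
    (hK : ∀ z : T n K ℚ, Cyc (tQ K) n z → z ∈ LinearMap.range (dd (tQ K) n))
    (z : T (n + 1) E ℚ) (hz : dd (tQ E) n z = 0) :
    ∃ y : T (n + 1) G ℚ, Cyc (tQ G) (n + 1) y ∧
      z - mp (n + 1) s.j LinearMap.id y ∈ LinearMap.range (dd (tQ E) (n + 1)) := by
  let v₀ : s.Vt := ((1 : E) : E ⧸ s.j.range)
  have esl : (sumC s.Vt) ∘ₗ (lsingle v₀) = (LinearMap.id : ℚ →ₗ[ℚ] ℚ) := by
    apply LinearMap.ext
    intro r
    rw [LinearMap.comp_apply, lsingle_apply, sumC_single]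
    rfl
  let z' : T (n + 1) E (s.Vt →₀ ℚ) := mp (n + 1) (MonoidHom.id E) (lsingle v₀) z
  have hz' : mp (n + 1) (MonoidHom.id E) (sumC s.Vt) z' = z := by
    change mp (n + 1) _ _ (mp (n + 1) _ _ z) = z
    rw [mp_mp, esl]
    exact mp_id (n + 1) z
  have hsd : ∀ (m : ℕ) (u : T (m + 1) E (s.Vt →₀ ℚ)),
      mp m (MonoidHom.id E) (sumC s.Vt) (dd (permRep s.σV) m u) =
        dd (tQ E) m (mp (m + 1) (MonoidHom.id E) (sumC s.Vt) u) := by
    intro m u
    rw [← dd_mp (ρ := permRep s.σV) (τ := tQ E) (MonoidHom.id E) (sumC s.Vt)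
      (fun g m => sumC_permRep s.σV g m)]
  obtain ⟨w', hwc', hw'⟩ := s.lift_edge n (dd (permRep s.σV) n z') (cyc_dd _ _ _) (by
    rw [hsd, hz', hz])
  obtain ⟨u', hu'⟩ := s.edge_acyclic n hK w' hwc'
  let c : T (n + 1) E (s.Vt →₀ ℚ) := z' - mp (n + 1) (MonoidHom.id E) s.bdy u'
  have hc : Cyc (permRep s.σV) (n + 1) c := by
    rw [cyc_succ]
    change dd (permRep s.σV) n (z' - mp (n + 1) (MonoidHom.id E) s.bdy u') = 0
    rw [map_sub, dd_mp (ρ := permRep s.σE) (τ := permRep s.σV) (MonoidHom.id E) s.bdy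
      (fun g m => s.bdy_equiv g m), hu', hw', sub_self]
  obtain ⟨y, hy, hy2⟩ := shapiro s.σV v₀ s.vtr s.j s.hj s.vfix s.vex (tQ G) (fun _ => rfl)
    (n + 1) c hc
  refine ⟨y, hy, ?_⟩
  obtain ⟨q, hq⟩ := hy2
  refine ⟨mp (n + 2) (MonoidHom.id E) (sumC s.Vt) q, ?_⟩
  rw [← hsd, hq, map_sub]
  congr 1
  · change mp (n + 1) (MonoidHom.id E) (sumC s.Vt)
      (z' - mp (n + 1) (MonoidHom.id E) s.bdy u') = z
    rw [map_sub, hz']
    have e : mp (n + 1) (MonoidHom.id E) (sumC s.Vt)
        (mp (n + 1) (MonoidHom.id E) s.bdy u') = 0 := by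
      rw [mp_mp]
      have e1 : (sumC s.Vt) ∘ₗ s.bdy = 0 := by
        apply lhom_ext'
        intro e
        apply LinearMap.ext
        intro r
        simp only [LinearMap.comp_apply, lsingle_apply, LinearMap.zero_apply]
        rw [bdy_single, map_sub, sumC_single, sumC_single, sub_self]
      rw [e1]
      have e2 : mp (M := s.Ed →₀ ℚ) (N := ℚ) (n + 1)
          (⇑(MonoidHom.id E) ∘ ⇑(MonoidHom.id E)) 0 = 0 := by
        apply T_ext
        intro a m
        rw [mp_single, LinearMap.zero_apply, Finsupp.single_zero, LinearMap.zero_apply]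
      rw [e2]
      rfl
    rw [e, sub_zero]
  · rw [mp_mp, esl]
    rfl

end Spl

theorem chain_of_hq {K : Type} [Group K] (n : ℕ) (h : ∀ x : HQ n K, x = 0) (z : T n K ℚ)
    (hz : Cyc (tQ K) n z) : z ∈ LinearMap.range (dd (tQ K) n) := by
  obtain ⟨x, hx⟩ := exists_class (A := Rep.trivial ℚ K ℚ) n z hz
  exact hx.eq_zero_iff.mp (h x)

theorem hq_unit (n : ℕ) (x : HQ (n + 1) Unit) : x = 0 := by
  rw [← hqMap_id Unit (n + 1) x]
  have : MonoidHom.id Unit = 1 := by ext
  rw [this, hqMap_one]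

/-- The rational homology of a free group vanishes in degrees at least two. -/
theorem hq_free (X : Type) (n : ℕ) (x : HQ (n + 2) (FreeGroup X)) : x = 0 := by
  let u : X → Unit →* Unit := fun _ => MonoidHom.id Unit
  have hid : Function.Injective (MonoidHom.id Unit) := fun a b h => h
  have hof : Function.Injective (Hnn.of u u) := fun a b _ => rfl
  let s := hnnSpl u u (fun _ => hid) hof
  have hE : ∀ y : HQ (n + 2) (Hnn u u), y = 0 := by
    intro y
    obtain ⟨z, hz⟩ := exists_rpr (Rep.trivial ℚ (Hnn u u) ℚ) (n + 2) y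
    obtain ⟨w, hw, hw2⟩ := s.surj_chain (n + 1) (chain_of_hq (n + 1) (hq_unit n)) z
      ((cyc_succ _ _ _).mp hz.cyc)
    rw [hz.eq_zero_iff]
    have h3 := chain_of_hq (n + 2) (hq_unit (n + 1)) w hw
    have h4 : mp (n + 2) s.j LinearMap.id w ∈ LinearMap.range (dd (tQ (Hnn u u)) (n + 2)) :=
      range_mp (ρ := tQ Unit) (τ := tQ (Hnn u u)) s.j LinearMap.id (fun _ _ => rfl) _ w h3
    have := Submodule.add_mem _ hw2 h4
    rwa [sub_add_cancel] at this
  let φ : FreeGroup X →* Hnn u u := FreeGroup.lift (Hnn.t u u)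
  let ψ : Hnn u u →* FreeGroup X := Hnn.lift 1 FreeGroup.of (fun i k => by simp)
  have h1 : ψ.comp φ = MonoidHom.id (FreeGroup X) := by
    apply FreeGroup.ext_hom
    intro x
    change ψ (φ (FreeGroup.of x)) = FreeGroup.of x
    simp only [φ, ψ]
    rw [FreeGroup.lift_apply_of, Hnn.lift_t]
  rw [← hqMap_id (FreeGroup X) (n + 2) x, ← h1, hqMap_comp, hE (hqMap φ (n + 2) x), map_zero]

/-- Multiple HNN extensions with free edge groups embed the base group and its rational homology in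
degrees different from one. -/
theorem hnn_hq {G I X : Type} [Group G] {u v : I → FreeGroup X →* G}
    (hu : ∀ i, Function.Injective (u i)) (hv : ∀ i, Function.Injective (v i)) (n : ℕ)
    (hn : n ≠ 1) : Function.Injective (hqMap (Hnn.of u v) n) := by
  match n, hn with
  | 0, _ =>
    rw [injective_iff_map_eq_zero]
    exact fun x hx => hq_zero_injective _ x hx
  | 1, h => exact absurd rfl h
  | n + 2, _ =>
    exact (hnnSpl u v hv (of_injective hu hv)).inj_hq (n + 2) (chain_of_hq (n + 2) (hq_free X n))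

end Pool.Agent.K3h41.SG
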