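import Pool.Agent.K3h41.SG.Univ

/-!
The marked groups with zero kernel form a `G_δ` set.
-/

namespace Pool.Agent.K3h41.SG

open Finsupp Pool.Agent.Y483 Pool.Agent.Y110.KW Pool.Agent.Y75.MQ CategoryTheory DirectSum

/-- The marked groups with generators indexed by `κ`: the normal subgroups `N` of the free group on
`κ`, which stand for the groups `FreeGroup κ ⧸ N` with the images of the free generators. -/
def Marked (κ : Type) : Type := {N : Subgroup (FreeGroup κ) // N.Normal}

namespace Marked

variable {κ : Type}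

instance (N : Marked κ) : N.1.Normal := N.2

/-- The group of a marked group. -/
abbrev grp (N : Marked κ) : Type := FreeGroup κ ⧸ N.1

open Classical in
/-- The indicator function of the normal subgroup. -/
noncomputable def ind (N : Marked κ) : FreeGroup κ → Bool := fun w => decide (w ∈ N.1)

/-- The topology of pointwise convergence of the indicator functions. -/
noncomputable instance : TopologicalSpace (Marked κ) := TopologicalSpace.induced ind inferInstance

theorem continuous_ind : Continuous (ind : Marked κ → FreeGroup κ → Bool) :=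
  continuous_induced_dom

theorem ind_true (N : Marked κ) (w : FreeGroup κ) : N.ind w = true ↔ w ∈ N.1 := by
  classical
  unfold ind
  rw [decide_eq_true_iff]

theorem isClopen_mem (w : FreeGroup κ) : IsClopen {N : Marked κ | w ∈ N.1} := by
  have h : {N : Marked κ | w ∈ N.1} = (fun N : Marked κ => N.ind w) ⁻¹' {true} := by
    ext N
    exact (ind_true N w).symm
  rw [h]
  exact (isClopen_discrete _).preimage ((continuous_apply w).comp continuous_ind)

theorem isClopen_sub (R : Finset (FreeGroup κ)) : IsClopen {N : Marked κ | ∀ r ∈ R, r ∈ N.1} := by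
  have h : {N : Marked κ | ∀ r ∈ R, r ∈ N.1} = ⋂ r ∈ R, {N : Marked κ | r ∈ N.1} := by
    ext N
    simp
  rw [h]
  exact isClopen_biInter_finset fun r _ => isClopen_mem r

theorem ind_injective : Function.Injective (ind : Marked κ → FreeGroup κ → Bool) := by
  intro N M h
  apply Subtype.ext
  ext w
  rw [← ind_true, ← ind_true, h]

theorem isClosed_range : IsClosed (Set.range (ind : Marked κ → FreeGroup κ → Bool)) := by
  have h : Set.range (ind : Marked κ → FreeGroup κ → Bool) =
      {χ | χ 1 = true} ∩ (⋂ a, ⋂ b, {χ | χ a = true → χ b = true → χ (a * b) = true}) ∩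
        (⋂ a, {χ | χ a = true → χ a⁻¹ = true}) ∩
        (⋂ a, ⋂ b, {χ | χ a = true → χ (b * a * b⁻¹) = true}) := by
    ext χ
    constructor
    · rintro ⟨N, rfl⟩
      simp only [Set.mem_inter_iff, Set.mem_ofPred_eq, Set.mem_iInter, ind_true]
      exact ⟨⟨⟨N.1.one_mem, fun a b => N.1.mul_mem⟩, fun a => N.1.inv_mem⟩,
        fun a b h => N.2.conj_mem a h b⟩
    · simp only [Set.mem_inter_iff, Set.mem_ofPred_eq, Set.mem_iInter]
      rintro ⟨⟨⟨h1, h2⟩, h3⟩, h4⟩
      let S : Subgroup (FreeGroup κ) :=
        { carrier := {w | χ w = true}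
          mul_mem' := fun {a b} => h2 a b
          one_mem' := h1
          inv_mem' := fun {a} => h3 a }
      let N : Marked κ := ⟨S, ⟨fun a h b => h4 a b h⟩⟩
      refine ⟨N, ?_⟩
      funext w
      exact Bool.eq_iff_iff.mpr (ind_true N w)
  rw [h]
  have c1 : ∀ w : FreeGroup κ, IsClopen {χ : FreeGroup κ → Bool | χ w = true} := fun w =>
    (isClopen_discrete {true}).preimage (continuous_apply w)
  have c2 : ∀ A B : Set (FreeGroup κ → Bool), IsClopen A → IsClopen B →
      IsClopen {χ | χ ∈ A → χ ∈ B} := by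
    intro A B hA hB
    have : {χ | χ ∈ A → χ ∈ B} = Aᶜ ∪ B := by
      ext χ
      simp [imp_iff_not_or]
    rw [this]
    exact hA.compl.union hB
  refine (((c1 1).isClosed.inter ?_).inter ?_).inter ?_
  · exact isClosed_iInter fun a => isClosed_iInter fun b =>
      (c2 _ _ (c1 a) (c2 _ _ (c1 b) (c1 (a * b)))).isClosed
  · exact isClosed_iInter fun a => (c2 _ _ (c1 a) (c1 a⁻¹)).isClosed
  · exact isClosed_iInter fun a => isClosed_iInter fun b =>
      (c2 _ _ (c1 a) (c1 (b * a * b⁻¹))).isClosed

theorem isClosedEmbedding_ind :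
    Topology.IsClosedEmbedding (ind : Marked κ → FreeGroup κ → Bool) :=
  ⟨⟨⟨rfl⟩, ind_injective⟩, isClosed_range⟩

instance : CompactSpace (Marked κ) := isClosedEmbedding_ind.compactSpace

instance : T2Space (Marked κ) := isClosedEmbedding_ind.isEmbedding.t2Space

theorem baire (X : Set (Marked κ)) : BaireSpace (closure X) := by
  have : CompactSpace (closure X) := isCompact_iff_compactSpace.mp isClosed_closure.isCompact
  infer_instance

end Marked

/-! ### countability -/

theorem countable_hq (n : ℕ) (G : Type) [Group G] [Countable G] : Countable (HQ n G) := by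
  have h := exists_rpr (Rep.trivial ℚ G ℚ) n
  choose z hz using h
  have hinj : Function.Injective z := by
    intro x y hxy
    have h1 := (hz x).sub (hz y)
    rw [hxy, sub_self] at h1
    exact sub_eq_zero.mp (h1.eq_zero_iff.mpr (Submodule.zero_mem _))
  have : Countable (T n G ℚ) := inferInstanceAs (Countable ((Fin n → G) →₀ ℚ))
  exact hinj.countable

theorem countable_hb {B : Type} [Countable B] (d : B → ℕ) (G : Type) [Group G] [Countable G] :
    Countable (HB d G) := by
  have : ∀ b, Countable (HQ (d b) G) := fun b => countable_hq _ _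
  exact inferInstanceAs (Countable (Π₀ b, HQ (d b) G))

theorem countable_freeGroup (κ : Type) [Countable κ] : Countable (FreeGroup κ) := by
  have : Countable (List (κ × Bool)) := inferInstance
  have h : Function.Surjective (FreeGroup.mk : List (κ × Bool) → FreeGroup κ) :=
    Quot.mk_surjective
  exact h.countable

/-! ### the theorem -/

section

variable {B : Type} (d : B → ℕ) {J : Type} [Preorder J] [IsDirectedOrder J] {G : J → Type}
  [∀ i, Group (G i)] {L : Type} [Group L] (s : Sys J G L)

theorem hb_kill (i : J) (x : HB d (G i)) (h : hbMap d (s.g i) x = 0) :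
    ∃ j, ∃ hj : i ≤ j, hbMap d (s.f i j hj) x = 0 := by
  classical
  have key : ∀ P : Finset B, ∃ j, ∃ hj : i ≤ j, ∀ b ∈ P, hqMap (s.f i j hj) (d b) (x b) = 0 := by
    intro P
    induction P using Finset.induction_on with
    | empty => exact ⟨i, le_refl i, fun p hp => absurd hp (Finset.notMem_empty p)⟩
    | insert b P hb ih =>
      obtain ⟨j, hj, h1⟩ := ih
      have h2 : hqMap (s.g i) (d b) (x b) = 0 := by
        rw [← hbMap_apply, h]
        rfl
      obtain ⟨k, hk, h3⟩ := s.hq_kill i (d b) (x b) h2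
      obtain ⟨l, hl, hl'⟩ := exists_ge_ge j k
      have e1 : (s.f j l hl).comp (s.f i j hj) = s.f i l (hj.trans hl) := by
        ext y
        exact s.ff i j l hj hl y
      have e2 : (s.f k l hl').comp (s.f i k hk) = s.f i l (hj.trans hl) := by
        ext y
        exact s.ff i k l hk hl' y
      refine ⟨l, hj.trans hl, fun c hc => ?_⟩
      rcases Finset.mem_insert.mp hc with rfl | hc
      · rw [← e2, hqMap_comp, h3, map_zero]
      · rw [← e1, hqMap_comp, h1 c hc, map_zero]
  obtain ⟨j, hj, h1⟩ := key (DFinsupp.support x)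
  refine ⟨j, hj, ?_⟩
  apply DFunLike.ext
  intro b
  rw [hbMap_apply]
  by_cases hb : b ∈ DFinsupp.support x
  · rw [h1 b hb]
    rfl
  · have : x b = 0 := by
      by_contra h0
      exact hb (DFinsupp.mem_support_iff.mpr h0)
    rw [this, map_zero]
    rfl

end

section Main

variable {κ : Type} {B : Type} (d : B → ℕ) {E : GrpCat.{0} ⥤ ModuleCat.{0} ℚ}
  (α : ∀ b : B, hq (d b) ⟶ E)

/-- The map from the group with finitely many relators. -/
def ql (N : Marked κ) (R : Finset (FreeGroup κ)) (h : ∀ r ∈ R, r ∈ N.1) : QR R →* N.grp :=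
  qlift (QuotientGroup.mk' N.1) ⟨R, fun r hr => (QuotientGroup.eq_one_iff r).mpr (h r hr)⟩

/-- The marked groups in which `y` dies. -/
def UR (R : Finset (FreeGroup κ)) (y : HB d (QR R)) : Set (Marked κ) :=
  {N | ∀ h : ∀ r ∈ R, r ∈ N.1, hbMap d (ql N R h) y = 0}

theorem ql_qmap (N : Marked κ) {R R' : Finset (FreeGroup κ)} (hle : R ⊆ R')
    (h : ∀ r ∈ R, r ∈ N.1) (h' : ∀ r ∈ R', r ∈ N.1) :
    ql N R h = (ql N R' h').comp (qmap hle) := by
  apply MonoidHom.ext
  intro x
  rw [MonoidHom.comp_apply]
  exact (qlift_qmap (QuotientGroup.mk' N.1)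
    ⟨R, fun r hr => (QuotientGroup.eq_one_iff r).mpr (h r hr)⟩
    ⟨R', fun r hr => (QuotientGroup.eq_one_iff r).mpr (h' r hr)⟩ hle x).symm

theorem kill_pres (N : Marked κ) (R : Finset (FreeGroup κ)) (hR : ∀ r ∈ R, r ∈ N.1)
    (y : HB d (QR R)) (h : hbMap d (ql N R hR) y = 0) :
    ∃ R' : Finset (FreeGroup κ), ∃ hle : R ⊆ R', (∀ r ∈ R', r ∈ N.1) ∧
      hbMap d (qmap hle) y = 0 := by
  obtain ⟨⟨R', hR'⟩, hle, h2⟩ := hb_kill d
    (presSys (QuotientGroup.mk' N.1) (QuotientGroup.mk'_surjective N.1))
    ⟨R, fun r hr => (QuotientGroup.eq_one_iff r).mpr (hR r hr)⟩ y h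
  exact ⟨R', hle, fun r hr => (QuotientGroup.eq_one_iff r).mp (hR' r hr), h2⟩

theorem isOpen_UR (R : Finset (FreeGroup κ)) (y : HB d (QR R)) : IsOpen (UR d R y) := by
  rw [isOpen_iff_forall_mem_open]
  intro N hN
  by_cases hR : ∀ r ∈ R, r ∈ N.1
  · have h1 := hN hR
    obtain ⟨R', hle, hR', h2⟩ := kill_pres d N R hR y h1
    refine ⟨{M | ∀ r ∈ R', r ∈ M.1}, ?_, (Marked.isClopen_sub R').isOpen, hR'⟩
    intro M hM hMR
    rw [ql_qmap M hle hMR hM, hbMap_comp, h2, map_zero]
  · refine ⟨{M | ∀ r ∈ R, r ∈ M.1}ᶜ, fun M hM h => absurd h hM,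
      (Marked.isClopen_sub R).compl.isOpen, hR⟩

theorem ker_iff (hE : Cont E) (N : Marked κ) : kerFam α (GrpCat.of N.grp) = ⊥ ↔
    ∀ p : Σ R : Finset (FreeGroup κ), {y : HB d (QR R) // tb d α (QR R) y = 0},
      N ∈ UR d p.1 p.2.1 := by
  rw [kerFam_bot]
  constructor
  · rintro h ⟨R, y, hy⟩ hR
    exact h _ (tb_map d α _ hy)
  · intro h x hx
    obtain ⟨⟨R, hR⟩, y, hy, hyx⟩ := ker_lift d
      (presSys (QuotientGroup.mk' N.1) (QuotientGroup.mk'_surjective N.1)) α hE x hx
    rw [← hyx]
    exact h ⟨R, y, hy⟩ fun r hr => (QuotientGroup.eq_one_iff r).mp (hR r hr)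

/-- The marked groups with zero kernel form a `G_δ` set. -/
theorem isGδ_ker [Countable κ] [Countable B] (hE : Cont E) :
    IsGδ {N : Marked κ | kerFam α (GrpCat.of N.grp) = ⊥} := by
  have : Countable (FreeGroup κ) := countable_freeGroup κ
  have h1 : ∀ R : Finset (FreeGroup κ), Countable (QR R) := fun R =>
    (QuotientGroup.mk_surjective (s := Subgroup.normalClosure (R : Set (FreeGroup κ)))).countable
  have h2 : ∀ R : Finset (FreeGroup κ), Countable (HB d (QR R)) := fun R => countable_hb d _
  have h3 : {N : Marked κ | kerFam α (GrpCat.of N.grp) = ⊥} =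
      ⋂ p : Σ R : Finset (FreeGroup κ), {y : HB d (QR R) // tb d α (QR R) y = 0},
        UR d p.1 p.2.1 := by
    ext N
    rw [Set.mem_ofPred_eq, ker_iff d α hE, Set.mem_iInter]
  rw [h3]
  exact IsGδ.iInter_of_isOpen fun p => isOpen_UR d _ _

/-- If the groups of `X` have zero kernel, then the marked groups in the closure of `X` with zero
kernel form a residual set. -/
theorem residual_ker [Countable κ] [Countable B] (hE : Cont E) (X : Set (Marked κ))
    (hX : ∀ N ∈ X, kerFam α (GrpCat.of N.grp) = ⊥) :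
    {N : closure X | kerFam α (GrpCat.of N.1.grp) = ⊥} ∈ residual (closure X) := by
  apply residual_of_dense_Gδ
  · exact (isGδ_ker d α hE).preimage continuous_subtype_val
  · apply Dense.mono (s₁ := {N : closure X | N.1 ∈ X})
    · intro N hN
      exact hX _ hN
    · rw [Subtype.dense_iff]
      intro N hN
      have : Subtype.val '' {N : closure X | N.1 ∈ X} = X := by
        ext M
        constructor
        · rintro ⟨M', h, rfl⟩
          exact h
        · intro h
          exact ⟨⟨M, subset_closure h⟩, h, rfl⟩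
      rwa [this]

end Main

end Pool.Agent.K3h41.SG
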