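import Pool.Agent.K3h41.SG.Core

/-!
Multiple HNN extensions: for homomorphisms `u_i, v_i : K → G`, `i ∈ I`, the group generated by `G` and
`t_i`, `i ∈ I`, with the relations `t_i u_i(k) = v_i(k) t_i`.
-/

namespace Pool.Agent.K3h41.SG

open Finsupp Pool.Agent.Y483

/-! ### affine permutations -/

section Aff

variable {E Y : Type} [Group E] (σ : E →* Equiv.Perm Y)

/-- The permutation `m ↦ g m + d` of `ℚ[Y]`. -/
noncomputable def aff (g : E) (d : Y →₀ ℚ) : Equiv.Perm (Y →₀ ℚ) where
  toFun m := permRep σ g m + d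
  invFun m := permRep σ g⁻¹ (m - d)
  left_inv m := by
    change permRep σ g⁻¹ (permRep σ g m + d - d) = m
    rw [add_sub_cancel_right, ← Module.End.mul_apply, ← map_mul, inv_mul_cancel, map_one]
    rfl
  right_inv m := by
    change permRep σ g (permRep σ g⁻¹ (m - d)) + d = m
    rw [← Module.End.mul_apply, ← map_mul, mul_inv_cancel, map_one, Module.End.one_apply,
      sub_add_cancel]

theorem aff_apply (g : E) (d m : Y →₀ ℚ) : aff σ g d m = permRep σ g m + d := rfl

theorem aff_mul (g h : E) (d d' : Y →₀ ℚ) :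
    aff σ g d * aff σ h d' = aff σ (g * h) (permRep σ g d' + d) := by
  apply Equiv.ext
  intro m
  rw [Equiv.Perm.mul_apply, aff_apply, aff_apply, aff_apply, map_add, map_mul,
    Module.End.mul_apply, add_assoc]

theorem aff_one : aff σ 1 0 = 1 := by
  apply Equiv.ext
  intro m
  rw [aff_apply, map_one, add_zero]
  rfl

end Aff

/-! ### the group -/

section Def

variable {G K I : Type} [Group G] [Group K] (u v : I → K →* G)

/-- The relators. -/
def hnnRel : Set (Monoid.Coprod G (FreeGroup I)) :=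
  {w | ∃ i k, w = Monoid.Coprod.inr (FreeGroup.of i) * Monoid.Coprod.inl (u i k) *
    (Monoid.Coprod.inr (FreeGroup.of i))⁻¹ * (Monoid.Coprod.inl (v i k))⁻¹}

/-- The multiple HNN extension. -/
def Hnn : Type := Monoid.Coprod G (FreeGroup I) ⧸ Subgroup.normalClosure (hnnRel u v)

noncomputable instance : Group (Hnn u v) :=
  inferInstanceAs (Group (Monoid.Coprod G (FreeGroup I) ⧸ Subgroup.normalClosure (hnnRel u v)))

/-- The map from the base group. -/
def Hnn.of : G →* Hnn u v :=
  (QuotientGroup.mk' (Subgroup.normalClosure (hnnRel u v))).comp Monoid.Coprod.inl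

/-- The stable letters. -/
def Hnn.t (i : I) : Hnn u v :=
  QuotientGroup.mk' (Subgroup.normalClosure (hnnRel u v)) (Monoid.Coprod.inr (FreeGroup.of i))

theorem Hnn.rel (i : I) (k : K) :
    Hnn.t u v i * Hnn.of u v (u i k) = Hnn.of u v (v i k) * Hnn.t u v i := by
  have h : (Monoid.Coprod.inr (FreeGroup.of i) * Monoid.Coprod.inl (u i k) *
    (Monoid.Coprod.inr (FreeGroup.of i))⁻¹ * (Monoid.Coprod.inl (v i k))⁻¹ :
      Monoid.Coprod G (FreeGroup I)) ∈ Subgroup.normalClosure (hnnRel u v) :=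
    Subgroup.subset_normalClosure ⟨i, k, rfl⟩
  have h2 := (QuotientGroup.eq_one_iff _).mpr h
  have h3 : Hnn.t u v i * Hnn.of u v (u i k) * (Hnn.t u v i)⁻¹ * (Hnn.of u v (v i k))⁻¹ = 1 := h2
  rw [mul_inv_eq_one] at h3
  rw [← h3]
  group

variable {u v}

/-- The universal property. -/
def Hnn.lift {H : Type} [Group H] (f : G →* H) (τ : I → H)
    (h : ∀ i k, τ i * f (u i k) = f (v i k) * τ i) : Hnn u v →* H :=
  QuotientGroup.lift (Subgroup.normalClosure (hnnRel u v))
    (Monoid.Coprod.lift f (FreeGroup.lift τ)) (by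
      have h1 : Subgroup.normalClosure (hnnRel u v) ≤
          (Monoid.Coprod.lift f (FreeGroup.lift τ)).ker := by
        apply Subgroup.normalClosure_le_normal
        rintro _ ⟨i, k, rfl⟩
        rw [SetLike.mem_coe, MonoidHom.mem_ker]
        simp only [map_mul, map_inv, Monoid.Coprod.lift_apply_inl, Monoid.Coprod.lift_apply_inr,
          FreeGroup.lift_apply_of]
        rw [h]
        group
      intro x hx
      exact h1 hx)

theorem Hnn.lift_of {H : Type} [Group H] (f : G →* H) (τ : I → H)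
    (h : ∀ i k, τ i * f (u i k) = f (v i k) * τ i) (g : G) :
    Hnn.lift f τ h (Hnn.of u v g) = f g := by
  change Monoid.Coprod.lift f (FreeGroup.lift τ) (Monoid.Coprod.inl g) = f g
  rw [Monoid.Coprod.lift_apply_inl]

theorem Hnn.lift_t {H : Type} [Group H] (f : G →* H) (τ : I → H)
    (h : ∀ i k, τ i * f (u i k) = f (v i k) * τ i) (i : I) :
    Hnn.lift f τ h (Hnn.t u v i) = τ i := by
  change Monoid.Coprod.lift f (FreeGroup.lift τ) (Monoid.Coprod.inr (FreeGroup.of i)) = τ i
  rw [Monoid.Coprod.lift_apply_inr, FreeGroup.lift_apply_of]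

theorem Hnn.gen (S : Subgroup (Hnn u v)) (h1 : (Hnn.of u v).range ≤ S)
    (h2 : ∀ i, Hnn.t u v i ∈ S) : S = ⊤ := by
  rw [eq_top_iff]
  rintro x -
  obtain ⟨y, rfl⟩ := QuotientGroup.mk'_surjective (Subgroup.normalClosure (hnnRel u v)) x
  induction y using Monoid.Coprod.induction_on with
  | inl g => exact h1 ⟨g, rfl⟩
  | inr w =>
    induction w using FreeGroup.induction_on with
    | C1 => rw [map_one, map_one]; exact S.one_mem
    | of i => exact h2 i
    | inv_of i ih => rw [map_inv, map_inv]; exact S.inv_mem ih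
    | mul a b ha hb => rw [map_mul, map_mul]; exact S.mul_mem ha hb
  | mul a b ha hb => rw [map_mul]; exact S.mul_mem ha hb

end Def

/-! ### the crossed homomorphism -/

section Crossed

variable {G K I : Type} [Group G] [Group K] (u v : I → K →* G)

/-- The edges. -/
abbrev HE : Type := Σ i : I, Hnn u v ⧸ ((Hnn.of u v).comp (v i)).range

/-- The action on the edges. -/
noncomputable abbrev hσ : Hnn u v →* Equiv.Perm (HE u v) := MulAction.toPermHom (Hnn u v) (HE u v)

/-- The base edge. -/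
noncomputable def e₀ (i : I) : HE u v →₀ ℚ :=
  single ⟨i, ((1 : Hnn u v) : Hnn u v ⧸ ((Hnn.of u v).comp (v i)).range)⟩ 1

theorem e₀_fix (i : I) (k : K) :
    permRep (hσ u v) (Hnn.of u v (v i k)) (e₀ u v i) = e₀ u v i := by
  unfold e₀
  rw [permRep_single]
  congr 1
  change (⟨i, ((Hnn.of u v (v i k) * 1 : Hnn u v) :
    Hnn u v ⧸ ((Hnn.of u v).comp (v i)).range)⟩ : HE u v) = _
  congr 1
  rw [eq_comm, QuotientGroup.eq]
  exact ⟨k, by simp⟩

/-- The affine action. -/
noncomputable def hAff : Hnn u v →* Equiv.Perm (HE u v →₀ ℚ) :=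
  Hnn.lift
    { toFun := fun g => aff (hσ u v) (Hnn.of u v g) 0
      map_one' := by rw [map_one, aff_one]
      map_mul' := fun g h => by rw [aff_mul, map_mul, map_zero, add_zero] }
    (fun i => aff (hσ u v) (Hnn.t u v i) (e₀ u v i)) (by
      intro i k
      change aff _ _ _ * aff _ _ _ = aff _ _ _ * aff _ _ _
      rw [aff_mul, aff_mul, map_zero, zero_add, e₀_fix, add_zero, Hnn.rel])

theorem hAff_of (g : G) : hAff u v (Hnn.of u v g) = aff (hσ u v) (Hnn.of u v g) 0 :=
  Hnn.lift_of _ _ _ g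

theorem hAff_t (i : I) : hAff u v (Hnn.t u v i) = aff (hσ u v) (Hnn.t u v i) (e₀ u v i) :=
  Hnn.lift_t _ _ _ i

theorem hAff_eq (g : Hnn u v) : hAff u v g = aff (hσ u v) g (hAff u v g 0) := by
  let S : Subgroup (Hnn u v) :=
    { carrier := {g | ∃ d, hAff u v g = aff (hσ u v) g d}
      mul_mem' := by
        rintro a b ⟨d, hd⟩ ⟨d', hd'⟩
        exact ⟨_, by rw [map_mul, hd, hd', aff_mul]⟩
      one_mem' := ⟨0, by rw [map_one, aff_one]⟩
      inv_mem' := by
        rintro a ⟨d, hd⟩
        refine ⟨-permRep (hσ u v) a⁻¹ d, ?_⟩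
        rw [map_inv, inv_eq_iff_mul_eq_one, hd, aff_mul, mul_inv_cancel, map_neg,
          ← Module.End.mul_apply, ← map_mul, mul_inv_cancel, map_one, Module.End.one_apply,
          neg_add_cancel, aff_one] }
  have hS : S = ⊤ := by
    apply Hnn.gen
    · rintro _ ⟨g, rfl⟩
      exact ⟨0, hAff_of u v g⟩
    · intro i
      exact ⟨e₀ u v i, hAff_t u v i⟩
  have hg : g ∈ S := by rw [hS]; exact Subgroup.mem_top g
  obtain ⟨d, hd⟩ := hg
  rw [hd, aff_apply, map_zero, zero_add]

/-- The data of the Bass–Serre tree of a multiple HNN extension. -/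
noncomputable def hnnSpl (hv : ∀ i, Function.Injective (v i))
    (hof : Function.Injective (Hnn.of u v)) : Spl (Hnn u v) G K I where
  j := Hnn.of u v
  b i := (Hnn.of u v).comp (v i)
  t := Hnn.t u v
  hj := hof
  hb i := hof.comp (hv i)
  hbj i k := ⟨v i k, rfl⟩
  hbt i k := ⟨u i k, by
    rw [MonoidHom.comp_apply, mul_assoc, ← Hnn.rel]
    group⟩
  gen S h1 h2 := Hnn.gen S h1 h2
  D g := hAff u v g 0
  hD g h := by
    rw [map_mul, Equiv.Perm.mul_apply]
    conv_lhs => rw [hAff_eq u v g]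
    rw [aff_apply, add_comm]
  hDj g := by rw [hAff_of, aff_apply, map_zero, zero_add]
  hDt i := by rw [hAff_t, aff_apply, map_zero, zero_add]; rfl

end Crossed

end Pool.Agent.K3h41.SG
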