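import Pool.Agent.Y483.Main
import Pool.Agent.Y483.Shapiro

/-!
Shapiro's lemma, injectivity part: a cycle of a subgroup which becomes a boundary with coefficients
in the permutation module of the cosets is a boundary.
-/

namespace Pool.Agent.K3h41.SG

open Finsupp Pool.Agent.Y483

section Shap

variable {E G A : Type} [Group E] [Group G]

theorem shap_inj (σ : E →* Equiv.Perm A) (a₀ : A) (ht : ∀ a, ∃ h, σ h a₀ = a) (j : G →* E)
    (hj : Function.Injective j) (hstab : ∀ k, σ (j k) a₀ = a₀)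
    (hex : ∀ h, σ h a₀ = a₀ → ∃ k, j k = h) (n : ℕ) (x : T n G ℚ)
    (h : mp n j (lsingle a₀) x ∈ LinearMap.range (dd (permRep σ) n)) :
    x ∈ LinearMap.range (dd (tQ G) n) := by
  classical
  -- a section with `t a₀ = 1`
  obtain ⟨t, ht1, ht0⟩ : ∃ t : A → E, (∀ a, σ (t a) a₀ = a) ∧ t a₀ = 1 := by
    choose t ht using ht
    refine ⟨fun a => if a = a₀ then 1 else t a, ?_, by simp⟩
    intro a
    by_cases ha : a = a₀
    · simp [ha]
    · simp [ha, ht]
  let κ : E → G := fun h => if hh : σ h a₀ = a₀ then (hex h hh).choose else 1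
  have hκ : ∀ h, σ h a₀ = a₀ → j (κ h) = h := by
    intro h hh
    simp only [κ, dif_pos hh]
    exact (hex h hh).choose_spec
  have hs : ∀ a (y : E), σ ((t a)⁻¹ * y * t ((σ y)⁻¹ a)) a₀ = a₀ := by
    intro a y
    simp only [map_mul, map_inv, Equiv.Perm.mul_apply, ht1]
    rw [Equiv.Perm.inv_eq_iff_eq, ht1]
    exact Equiv.apply_symm_apply _ _
  let c : A → E → G := fun a y => κ ((t a)⁻¹ * y * t ((σ y)⁻¹ a))
  have hc : ∀ a y, j (c a y) = (t a)⁻¹ * y * t ((σ y)⁻¹ a) := fun a y => hκ _ (hs a y)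
  have hceq : ∀ g a, ∃ k : G, ∀ y, c (σ g a) (g * y) = k * c a y := by
    intro g a
    have h1 : σ ((t (σ g a))⁻¹ * g * t a) a₀ = a₀ := by
      simp only [map_mul, map_inv, Equiv.Perm.mul_apply, ht1]
      rw [Equiv.Perm.inv_eq_iff_eq, ht1]
    obtain ⟨k, hk⟩ := hex _ h1
    refine ⟨k, fun y => hj ?_⟩
    rw [map_mul, hc, hc, hk, map_mul, mul_inv_rev, Equiv.Perm.mul_apply,
      show (σ g)⁻¹ (σ g a) = a from Equiv.symm_apply_apply _ _]
    group
  let R : ∀ n, T n E (A →₀ ℚ) →ₗ[ℚ] T n G ℚ := fun n => comb n (fun a => mp n (c a) LinearMap.id)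
  have hRbd : ∀ n z, R n (bd n z) = bd n (R (n + 1) z) := by
    intro n z
    have h1 : (R n) ∘ₗ (bd n) = (bd n) ∘ₗ (R (n + 1)) := by
      apply TI_ext
      intro y a r
      simp only [R, LinearMap.comp_apply]
      rw [comb_bd, comb_single, comb_single, LinearMap.comp_apply, bd_mp]
    exact DFunLike.congr_fun h1 z
  have hinv : ∀ n g z, pp (tQ G) n (R (n + 1) (tr (permRep σ) (n + 1) g z)) =
      pp (tQ G) n (R (n + 1) z) := by
    intro n g z
    have h1 : (pp (tQ G) n) ∘ₗ (R (n + 1)) ∘ₗ (tr (permRep σ) (n + 1) g) =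
        (pp (tQ G) n) ∘ₗ (R (n + 1)) := by
      apply TI_ext
      intro y a r
      obtain ⟨k, hk⟩ := hceq g a
      simp only [R, LinearMap.comp_apply]
      rw [tr, mp_single, permRep_single, comb_single, comb_single, mp_single, mp_single]
      have e : (single (c (σ g a) ∘ (fun y => g * y) ∘ y) ((LinearMap.id : ℚ →ₗ[ℚ] ℚ) r) :
          T (n + 1) G ℚ) =
          tr (tQ G) (n + 1) k (single (c a ∘ y) ((LinearMap.id : ℚ →ₗ[ℚ] ℚ) r)) := by
        rw [tr, mp_single]
        congr 1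
        funext i
        exact hk (y i)
      rw [e]
      exact pp_tr (tQ G) n k _
    exact DFunLike.congr_fun h1 z
  let Rb : ∀ n, T n E (A →₀ ℚ) →ₗ[ℚ] T n G ℚ := fun n => (pp (tQ G) n) ∘ₗ (R (n + 1)) ∘ₗ (sg n)
  have hRb : ∀ n u, dd (tQ G) n (Rb (n + 1) u) = Rb n (dd (permRep σ) n u) := by
    intro n u
    simp only [Rb, LinearMap.comp_apply]
    rw [← pp_bd, ← hRbd]
    have h1 := factor (permRep σ) n ((pp (tQ G) n) ∘ₗ (R (n + 1))) (fun g z => hinv n g z)
      (bd (n + 1) (sg (n + 1) u))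
    rw [LinearMap.comp_apply] at h1
    rw [h1, pp_bd, pp_sg]
    rfl
  have hfix : ∀ w : T n G ℚ, Rb n (mp n j (lsingle a₀) w) = w := by
    intro w
    have h1 : (Rb n) ∘ₗ (mp n j (lsingle a₀)) = (LinearMap.id : T n G ℚ →ₗ[ℚ] T n G ℚ) := by
      apply T_ext
      intro y r
      simp only [Rb, R, LinearMap.comp_apply]
      rw [mp_single, lsingle_apply, sg_single, comb_single, mp_single, pp_single,
        LinearMap.id_apply]
      have e : ∀ i, (c a₀ ∘ Fin.partialProd (j ∘ y)) i = Fin.partialProd y i := by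
        intro i
        apply hj
        have e1 : ∀ i, Fin.partialProd (j ∘ y) i = j (Fin.partialProd y i) := by
          intro i
          induction i using Fin.induction with
          | zero => simp
          | succ i ih => rw [Fin.partialProd_succ, Fin.partialProd_succ, map_mul, ih]; rfl
        rw [Function.comp_apply, hc, e1, ht0]
        have e2 : (σ (j (Fin.partialProd y i)))⁻¹ a₀ = a₀ := by
          rw [Equiv.Perm.inv_eq_iff_eq, hstab]
        rw [e2, ht0]
        simp
      have e3 : (fun i : Fin n => ((c a₀ ∘ Fin.partialProd (j ∘ y)) i.castSucc)⁻¹ *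
          (c a₀ ∘ Fin.partialProd (j ∘ y)) i.succ) = y := by
        funext i
        rw [e, e]
        exact Fin.partialProd_right_inv y i
      rw [e3]
      rfl
    exact DFunLike.congr_fun h1 w
  obtain ⟨u, hu⟩ := h
  exact ⟨Rb (n + 1) u, by rw [hRb, hu, hfix]⟩

end Shap

end Pool.Agent.K3h41.SG
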