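import Pool.Agent.K3h41.SG.Sys

/-!
Every group embeds in a simple group with control of the rational homology.
-/

namespace Pool.Agent.K3h41.SG

open Finsupp Pool.Agent.Y483

/-! ### elements of infinite order -/

section Order

variable {G : Type} [Group G]

/-- The homomorphism of the infinite cyclic group given by an element. -/
def cyc (w : G) : FreeGroup Unit →* G := FreeGroup.lift fun _ => w

theorem cyc_of (w : G) : cyc w (FreeGroup.of ()) = w := FreeGroup.lift_apply_of

theorem unit_zpow (x : FreeGroup Unit) : ∃ n : ℤ, x = FreeGroup.of () ^ n := by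
  induction x using FreeGroup.induction_on with
  | C1 => exact ⟨0, (zpow_zero _).symm⟩
  | of u => exact ⟨1, (zpow_one _).symm⟩
  | inv_of u _ => exact ⟨-1, (zpow_neg_one _).symm⟩
  | mul a b ha hb =>
    obtain ⟨m, rfl⟩ := ha
    obtain ⟨n, rfl⟩ := hb
    exact ⟨m + n, (zpow_add _ _ _).symm⟩

theorem cyc_injective {w : G} (hw : ∀ n : ℤ, w ^ n = 1 → n = 0) : Function.Injective (cyc w) := by
  rw [injective_iff_map_eq_one]
  intro x hx
  obtain ⟨n, rfl⟩ := unit_zpow x
  rw [map_zpow, cyc_of] at hx
  rw [hw n hx, zpow_zero]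

end Order

section Step

variable (G : Type) [Group G]

/-- The free product of `G` and an infinite cyclic group. -/
abbrev FP : Type := Monoid.Coprod G (FreeGroup Unit)

/-- The inclusion of `G`. -/
def fin : G →* FP G := Monoid.Coprod.inl

/-- The new letter. -/
def fz : FP G := Monoid.Coprod.inr (FreeGroup.of ())

variable {G}

theorem mult_order (n : ℤ) (h : (Multiplicative.ofAdd (1 : ℤ)) ^ n = 1) : n = 0 := by
  have h2 : Multiplicative.toAdd ((Multiplicative.ofAdd (1 : ℤ)) ^ n) = 0 := by rw [h]; rfl
  rwa [toAdd_zpow, toAdd_ofAdd, smul_eq_mul, mul_one] at h2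

theorem z_order (n : ℤ) (h : fz G ^ n = 1) : n = 0 := by
  have h1 : Monoid.Coprod.lift (1 : G →* Multiplicative ℤ)
      (FreeGroup.lift fun _ => Multiplicative.ofAdd (1 : ℤ)) (fz G ^ n) = 1 := by
    rw [h]; exact map_one _
  rw [map_zpow, fz, Monoid.Coprod.lift_apply_inr, FreeGroup.lift_apply_of] at h1
  exact mult_order n h1

theorem hz_order (g : G) (n : ℤ) (h : (fin G g * fz G) ^ n = 1) : n = 0 := by
  have h1 : Monoid.Coprod.lift (1 : G →* Multiplicative ℤ)
      (FreeGroup.lift fun _ => Multiplicative.ofAdd (1 : ℤ)) ((fin G g * fz G) ^ n) = 1 := by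
    rw [h]; exact map_one _
  rw [map_zpow, map_mul, fz, fin, Monoid.Coprod.lift_apply_inr,
    Monoid.Coprod.lift_apply_inl, FreeGroup.lift_apply_of, MonoidHom.one_apply, one_mul] at h1
  exact mult_order n h1

open Classical in
/-- A permutation of `G × ℤ`: `(1, n) ↦ (g, n) ↦ (1, n + 1)`. -/
noncomputable def zeta (g : G) (hg : g ≠ 1) : Equiv.Perm (G × ℤ) where
  toFun p := if p.1 = 1 then (g, p.2) else if p.1 = g then (1, p.2 + 1) else p
  invFun p := if p.1 = g then (1, p.2) else if p.1 = 1 then (g, p.2 - 1) else p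
  left_inv p := by
    obtain ⟨x, n⟩ := p
    by_cases h1 : x = 1
    · simp [h1]
    · by_cases h2 : x = g
      · simp [h2, hg, Ne.symm hg]
      · simp [h1, h2]
  right_inv p := by
    obtain ⟨x, n⟩ := p
    by_cases h2 : x = g
    · simp [h2]
    · by_cases h1 : x = 1
      · simp [h1, hg, Ne.symm hg]
      · simp [h1, h2]

/-- The left regular action on `G × ℤ`. -/
def lact : G →* Equiv.Perm (G × ℤ) where
  toFun g := (Equiv.mulLeft g).prodCongr (Equiv.refl _)
  map_one' := by ext p <;> simp
  map_mul' g h := by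
    apply Equiv.ext
    rintro ⟨x, w⟩
    simp [mul_assoc]

theorem lact_apply (g x : G) (n : ℤ) : lact g (x, n) = (g * x, n) := rfl

/-- The element `g z g z⁻¹`. -/
def gz (g : G) : FP G := fin G g * fz G * fin G g * (fz G)⁻¹

theorem gz_order (g : G) (hg : g ≠ 1) (n : ℤ) (h : gz g ^ n = 1) : n = 0 := by
  classical
  let W : FP G →* Equiv.Perm (G × ℤ) :=
    Monoid.Coprod.lift lact (FreeGroup.lift fun _ => zeta g hg)
  have hW : W (gz g) = lact g * zeta g hg * lact g * (zeta g hg)⁻¹ := by
    simp only [W, gz, fin, fz, map_mul, map_inv, Monoid.Coprod.lift_apply_inl,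
      Monoid.Coprod.lift_apply_inr, FreeGroup.lift_apply_of]
  have hz1 : ∀ m : ℤ, (zeta g hg)⁻¹ (g, m) = (1, m) := by
    intro m
    rw [Equiv.Perm.inv_eq_iff_eq]
    simp [zeta]
  have hz2 : ∀ m : ℤ, zeta g hg (g, m) = (1, m + 1) := by
    intro m
    simp [zeta, hg]
  have h1 : ∀ m : ℤ, W (gz g) (g, m) = (g, m + 1) := by
    intro m
    have a : ∀ m : ℤ, lact g ((1 : G), m) = (g, m) := fun m => by rw [lact_apply, mul_one]
    rw [hW, Equiv.Perm.mul_apply, Equiv.Perm.mul_apply, Equiv.Perm.mul_apply, hz1, a, hz2, a]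
  have h2 : ∀ (k : ℕ) (m : ℤ), (W (gz g) ^ k) (g, m) = (g, m + k) := by
    intro k
    induction k with
    | zero => intro m; simp
    | succ k ih =>
      intro m
      rw [pow_succ, Equiv.Perm.mul_apply, h1, ih]
      congr 1
      push_cast
      ring
  have h3 : ∀ k : ℕ, gz g ^ k = 1 → k = 0 := by
    intro k hk
    have h4 := h2 k 0
    rw [← map_pow, hk, map_one, Equiv.Perm.one_apply] at h4
    have h5 := (Prod.ext_iff.mp h4).2
    simp only [zero_add] at h5
    exact_mod_cast h5.symm
  rcases Int.eq_nat_or_neg n with ⟨k, rfl | rfl⟩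
  · rw [zpow_natCast] at h
    rw [h3 k h]
    rfl
  · rw [zpow_neg, inv_eq_one, zpow_natCast] at h
    rw [h3 k h]
    rfl

variable (G)

/-- The index set of the stable letters. -/
abbrev SI : Type := {p : G × G // p.1 ≠ 1} × Bool

/-- The elements which are conjugated. -/
def stu (i : SI G) : FreeGroup Unit →* FP G := cyc (gz i.1.1.1)

/-- The elements to which they are conjugated. -/
def stv (i : SI G) : FreeGroup Unit →* FP G :=
  cyc (if i.2 = true then fin G i.1.1.2 * fz G else fz G)

/-- One step of the construction. -/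
abbrev Step : Type := Hnn (stu G) (stv G)

theorem stu_inj (i : SI G) : Function.Injective (stu G i) :=
  cyc_injective (gz_order _ i.1.2)

theorem stv_inj (i : SI G) : Function.Injective (stv G i) := by
  unfold stv
  apply cyc_injective
  intro n h
  split_ifs at h
  · exact hz_order _ n h
  · exact z_order n h

/-- The embedding. -/
noncomputable def emb : G →* Step G := (Hnn.of (stu G) (stv G)).comp (fin G)

theorem fin_injective : Function.Injective (fin G) := by
  intro a b h
  have h1 := congrArg (Monoid.Coprod.lift (MonoidHom.id G) (1 : FreeGroup Unit →* G)) h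
  rwa [fin, Monoid.Coprod.lift_apply_inl, Monoid.Coprod.lift_apply_inl] at h1

theorem emb_injective : Function.Injective (emb G) :=
  (of_injective (stu_inj G) (stv_inj G)).comp (fin_injective G)

theorem emb_hq (n : ℕ) (hn : n ≠ 1) : Function.Injective (hqMap (emb G) n) := by
  rw [injective_iff_map_eq_zero]
  intro x hx
  unfold emb at hx
  rw [hqMap_comp] at hx
  have h1 : hqMap (fin G) n x = 0 := by
    apply hnn_hq (stu_inj G) (stv_inj G) n hn
    rw [hx, map_zero]
  have h2 : (Monoid.Coprod.lift (MonoidHom.id G) (1 : FreeGroup Unit →* G)).comp (fin G) =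
      MonoidHom.id G := by
    ext g
    rw [MonoidHom.comp_apply, fin, Monoid.Coprod.lift_apply_inl]
  rw [← hqMap_id G n x, ← h2, hqMap_comp, h1, map_zero]

variable {G}

/-- Each element is in the normal closure of each nontrivial element, one step later. -/
theorem emb_normal (g h : G) (hg : g ≠ 1) (N : Subgroup (Step G)) [N.Normal]
    (hN : emb G g ∈ N) : emb G h ∈ N := by
  have key : ∀ b : Bool, Hnn.of (stu G) (stv G) (stv G (⟨(g, h), hg⟩, b) (FreeGroup.of ())) ∈ N := by
    intro b
    have h1 := Hnn.rel (stu G) (stv G) (⟨(g, h), hg⟩, b) (FreeGroup.of ())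
    have h2 : Hnn.of (stu G) (stv G) (stv G (⟨(g, h), hg⟩, b) (FreeGroup.of ())) =
        Hnn.t (stu G) (stv G) (⟨(g, h), hg⟩, b) *
          Hnn.of (stu G) (stv G) (stu G (⟨(g, h), hg⟩, b) (FreeGroup.of ())) *
          (Hnn.t (stu G) (stv G) (⟨(g, h), hg⟩, b))⁻¹ := by
      rw [h1]; group
    rw [h2]
    apply Subgroup.Normal.conj_mem inferInstance
    have h3 : stu G (⟨(g, h), hg⟩, b) (FreeGroup.of ()) = gz g := cyc_of _
    rw [h3]
    have h4 : Hnn.of (stu G) (stv G) (gz g) = emb G g *
        (Hnn.of (stu G) (stv G) (fz G) * emb G g * (Hnn.of (stu G) (stv G) (fz G))⁻¹) := by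
      unfold gz emb
      simp only [map_mul, map_inv, MonoidHom.comp_apply, mul_assoc]
    rw [h4]
    exact N.mul_mem hN (Subgroup.Normal.conj_mem inferInstance _ hN _)
  have h5 := key true
  have h6 := key false
  have e5 : stv G (⟨(g, h), hg⟩, true) (FreeGroup.of ()) = fin G h * fz G := cyc_of _
  have e6 : stv G (⟨(g, h), hg⟩, false) (FreeGroup.of ()) = fz G := cyc_of _
  rw [e5, map_mul] at h5
  rw [e6] at h6
  have := N.mul_mem h5 (N.inv_mem h6)
  rwa [mul_inv_cancel_right] at this

end Step

/-! ### the union -/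

section Tower

variable (G : Type) [Group G]

/-- The stages. -/
noncomputable def tw : ℕ → GrpCat.{0}
  | 0 => GrpCat.of G
  | n + 1 => GrpCat.of (Step (tw n))

/-- The map to the next stage. -/
noncomputable def nx (n : ℕ) : tw G n →* tw G (n + 1) := emb (tw G n)

/-- The maps between the stages. -/
noncomputable def tf (i j : ℕ) (h : i ≤ j) : tw G i →* tw G j :=
  Nat.leRecOn (C := fun k => tw G i →* tw G k) h (fun {k} φ => (nx G k).comp φ)
    (MonoidHom.id (tw G i))

theorem tf_self (i : ℕ) : tf G i i le_rfl = MonoidHom.id _ := Nat.leRecOn_self _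

theorem tf_succ (i j : ℕ) (h : i ≤ j) :
    tf G i (j + 1) (h.trans (Nat.le_succ j)) = (nx G j).comp (tf G i j h) :=
  Nat.leRecOn_succ h _

theorem tf_tf (i j k : ℕ) (h : i ≤ j) (h' : j ≤ k) (x : tw G i) :
    tf G j k h' (tf G i j h x) = tf G i k (h.trans h') x := by
  induction k, h' using Nat.le_induction with
  | base => rw [tf_self]; rfl
  | succ k hk ih =>
    rw [tf_succ G j k hk, tf_succ G i k (h.trans hk), MonoidHom.comp_apply, MonoidHom.comp_apply,
      ih]

instance : DirectedSystem (fun n => (tw G n : Type)) (fun i j h => tf G i j h) where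
  map_self i x := by rw [tf_self]; rfl
  map_map k j i h h' x := tf_tf G i j k h h' x

/-- The union. -/
abbrev Un : Type := DirectLimit (fun n => (tw G n : Type)) (fun i j h => tf G i j h)

/-- The map from a stage to the union. -/
noncomputable def tg (i : ℕ) : tw G i →* Un G where
  toFun x := ⟦⟨i, x⟩⟧
  map_one' := (DirectLimit.one_def (G := fun n => (tw G n : Type))
    (f := fun i j h => tf G i j h) i).symm
  map_mul' x y := (DirectLimit.mul_def (G := fun n => (tw G n : Type))
    (f := fun i j h => tf G i j h) i x y).symm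

/-- The union as a colimit. -/
noncomputable def twSys : Sys ℕ (fun n => (tw G n : Type)) (Un G) where
  f := tf G
  g := tg G
  ff := tf_tf G
  gf i j h x := (DirectLimit.eq_of_le (F := fun n => (tw G n : Type))
    (f := fun i j h => tf G i j h) ⟨i, x⟩ j h).symm
  sur y := by
    obtain ⟨i, x, h⟩ := DirectLimit.exists_eq_mk (F := fun n => (tw G n : Type))
      (f := fun i j h => tf G i j h) y
    exact ⟨i, x, h.symm⟩
  inj i x h := by
    obtain ⟨j, hj, h1⟩ := (DirectLimit.exists_eq_one (G := fun n => (tw G n : Type))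
      (f := fun i j h => tf G i j h) ⟨i, x⟩).mp h
    exact ⟨j, hj, h1⟩

theorem tf_injective (i j : ℕ) (h : i ≤ j) : Function.Injective (tf G i j h) := by
  induction j, h using Nat.le_induction with
  | base => rw [tf_self]; exact fun a b h => h
  | succ j hj ih =>
    rw [tf_succ G i j hj]
    exact (emb_injective (tw G j)).comp ih

theorem tf_hq (n : ℕ) (hn : n ≠ 1) (i j : ℕ) (h : i ≤ j) :
    Function.Injective (hqMap (tf G i j h) n) := by
  induction j, h using Nat.le_induction with
  | base =>
    rw [tf_self]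
    intro a b h
    rwa [hqMap_id, hqMap_id] at h
  | succ j hj ih =>
    rw [tf_succ G i j hj]
    intro a b h
    rw [hqMap_comp, hqMap_comp] at h
    exact ih (emb_hq (tw G j) n hn h)

/-- The embedding of `G` in the union. -/
noncomputable def inc : G →* Un G := tg G 0

theorem tg_injective (i : ℕ) : Function.Injective (tg G i) := by
  rw [injective_iff_map_eq_one]
  intro x hx
  obtain ⟨j, hj, h⟩ := (twSys G).inj i x hx
  exact tf_injective G i j hj (h.trans (map_one (tf G i j hj)).symm)

theorem tg_hq (i n : ℕ) (hn : n ≠ 1) : Function.Injective (hqMap (tg G i) n) := by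
  rw [injective_iff_map_eq_zero]
  intro x hx
  obtain ⟨j, hj, h⟩ := (twSys G).hq_kill i n x hx
  exact tf_hq G n hn i j hj (h.trans (map_zero (hqMap (tf G i j hj) n)).symm)

theorem inc_injective : Function.Injective (inc G) := tg_injective G 0

theorem inc_hq (n : ℕ) (hn : n ≠ 1) : Function.Injective (hqMap (inc G) n) := tg_hq G 0 n hn

theorem un_normal (N : Subgroup (Un G)) [N.Normal] (hN : N ≠ ⊥) : N = ⊤ := by
  obtain ⟨⟨s, hs⟩, hs0⟩ := Subgroup.ne_bot_iff_exists_ne_one.mp hN
  have hs1 : s ≠ 1 := fun h => hs0 (Subtype.ext h)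
  rw [eq_top_iff]
  rintro y -
  obtain ⟨i, g, hg⟩ := (twSys G).sur s
  obtain ⟨j, h, hh⟩ := (twSys G).sur y
  obtain ⟨k, hik, hjk⟩ := exists_ge_ge i j
  have e1 : tg G k (tf G i k hik g) = s := by rw [← hg]; exact (twSys G).gf i k hik g
  have e2 : tg G k (tf G j k hjk h) = y := by rw [← hh]; exact (twSys G).gf j k hjk h
  have hne : tf G i k hik g ≠ 1 := by
    intro h0
    apply hs1
    rw [← e1, h0, map_one]
  let γ : Step (tw G k) →* Un G := tg G (k + 1)
  have e3 : ∀ x, γ (emb (tw G k) x) = tg G k x := by
    intro x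
    have := (twSys G).gf k (k + 1) (Nat.le_succ k) x
    have h4 : tf G k (k + 1) (Nat.le_succ k) x = nx G k x := by
      rw [tf_succ G k k le_rfl, tf_self]
      rfl
    change tg G (k + 1) (tf G k (k + 1) (Nat.le_succ k) x) = _ at this
    rw [h4] at this
    exact this
  have h5 := emb_normal (G := tw G k) (tf G i k hik g) (tf G j k hjk h) hne
    (N.comap γ) (by
      rw [Subgroup.mem_comap, e3, e1]
      exact hs)
  rw [Subgroup.mem_comap, e3, e2] at h5
  exact h5

/-- A nontrivial element of the union. -/
theorem un_nontrivial : Nontrivial (Un G) := by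
  have h : fz G ≠ 1 := by
    intro h
    have := z_order (G := G) 1 (by rw [zpow_one, h])
    omega
  have h1 : Hnn.of (stu G) (stv G) (fz G) ≠ 1 := by
    intro h2
    exact h (of_injective (stu_inj G) (stv_inj G) (by rw [h2, map_one]))
  refine ⟨tg G 1 (Hnn.of (stu G) (stv G) (fz G)), 1, ?_⟩
  intro h2
  exact h1 (tg_injective G 1 (h2.trans (map_one (tg G 1)).symm))

theorem un_simple : IsSimpleGroup (Un G) :=
  { un_nontrivial G with
    eq_bot_or_eq_top_of_normal := fun N _ => by
      by_cases h : N = ⊥
      · exact Or.inl h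
      · exact Or.inr (un_normal G N h) }

/-- **Every group embeds in a simple group such that the map on rational homology is injective in
all degrees different from one.** -/
theorem exists_simple : ∃ (S : Type) (_ : Group S), IsSimpleGroup S ∧
    ∃ i : G →* S, Function.Injective i ∧ ∀ n, n ≠ 1 → Function.Injective (hqMap i n) :=
  ⟨Un G, inferInstance, un_simple G, inc G, inc_injective G, inc_hq G⟩

end Tower

/-! ### countability -/

section Countable

theorem countable_coprod {A B : Type} [Group A] [Group B] [Countable A] [Countable B] :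
    Countable (Monoid.Coprod A B) := by
  have h : Function.Surjective (Monoid.Coprod.mk : FreeMonoid (A ⊕ B) →* Monoid.Coprod A B) :=
    Monoid.Coprod.mk_surjective
  have : Countable (FreeMonoid (A ⊕ B)) := inferInstanceAs (Countable (List (A ⊕ B)))
  exact h.countable

theorem countable_free {X : Type} [Countable X] : Countable (FreeGroup X) := by
  have h : Function.Surjective (FreeGroup.mk : List (X × Bool) → FreeGroup X) :=
    fun x => by
      obtain ⟨l, rfl⟩ := Quot.exists_rep x
      exact ⟨l, rfl⟩
  exact h.countable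

theorem countable_hnn {G K I : Type} [Group G] [Group K] [Countable G] [Countable I]
    (u v : I → K →* G) : Countable (Hnn u v) := by
  have := countable_free (X := I)
  have := countable_coprod (A := G) (B := FreeGroup I)
  exact (QuotientGroup.mk'_surjective (Subgroup.normalClosure (hnnRel u v))).countable

variable (G : Type) [Group G] [Countable G]

theorem countable_tw (n : ℕ) : Countable (tw G n) := by
  induction n with
  | zero => exact ‹Countable G›
  | succ n ih =>
    have := countable_free (X := Unit)
    have := countable_coprod (A := tw G n) (B := FreeGroup Unit)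
    have := countable_hnn (stu (tw G n)) (stv (tw G n))
    exact this

theorem countable_un : Countable (Un G) := by
  have := countable_tw G
  have h : Function.Surjective (fun p : Σ n, tw G n => tg G p.1 p.2) := by
    intro y
    obtain ⟨i, x, h⟩ := (twSys G).sur y
    exact ⟨⟨i, x⟩, h⟩
  exact h.countable

end Countable

end Pool.Agent.K3h41.SG
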