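import Pool.Agent.K3h41.SG.Emb

/-!
Directed systems of groups and the rational homology of their colimits.
-/

namespace Pool.Agent.K3h41.SG

open Finsupp Pool.Agent.Y483

/-- A directed system of groups with colimit `L`. -/
structure Sys (J : Type) [Preorder J] (G : J → Type) [∀ i, Group (G i)] (L : Type)
    [Group L] where
  f : ∀ i j, i ≤ j → G i →* G j
  g : ∀ i, G i →* L
  ff : ∀ i j k (h : i ≤ j) (h' : j ≤ k) x, f j k h' (f i j h x) = f i k (h.trans h') x
  gf : ∀ i j (h : i ≤ j) x, g j (f i j h x) = g i x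
  sur : ∀ y, ∃ i x, g i x = y
  inj : ∀ i x, g i x = 1 → ∃ j, ∃ h : i ≤ j, f i j h x = 1

/-- Coincidences. -/
theorem coincide {X Y Z M : Type*} [AddCommMonoid M] (p : X → Y) (q : X → Z) (δ : X →₀ M)
    (h0 : mapDomain p δ = 0)
    (h : ∀ x ∈ δ.support, ∀ x' ∈ δ.support, p x = p x' → q x = q x') : mapDomain q δ = 0 := by
  classical
  by_cases hne : Nonempty Z
  · let r : Y → Z := fun y => if hy : ∃ x ∈ δ.support, p x = y then q hy.choose
      else Classical.arbitrary Z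
    have h1 : mapDomain q δ = mapDomain (r ∘ p) δ := by
      apply mapDomain_congr
      intro x hx
      have hy : ∃ x' ∈ δ.support, p x' = p x := ⟨x, hx, rfl⟩
      change q x = r (p x)
      simp only [r, dif_pos hy]
      exact h x hx _ hy.choose_spec.1 hy.choose_spec.2.symm
    rw [h1, mapDomain_comp, h0, mapDomain_zero]
  · have : IsEmpty X := ⟨fun x => hne ⟨q x⟩⟩
    have : δ = 0 := Subsingleton.elim _ _
    rw [this, mapDomain_zero]

theorem mp_eq {X Y : Type*} (n : ℕ) (f : X → Y) (z : T n X ℚ) :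
    mp n f LinearMap.id z = mapDomain (fun x : Fin n → X => f ∘ x) z := by
  induction z using Finsupp.induction_linear with
  | zero => simp
  | add a b ha hb => rw [map_add, ha, hb, mapDomain_add]
  | single x m => rw [mp_single, mapDomain_single]; rfl

namespace Sys

variable {J : Type} [Preorder J] [IsDirectedOrder J] {G : J → Type} [∀ i, Group (G i)] {L : Type}
  [Group L] (s : Sys J G L)

include s

omit [IsDirectedOrder J] in
theorem coin {i : J} {x y : G i} (h : s.g i x = s.g i y) :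
    ∃ j, ∃ hj : i ≤ j, s.f i j hj x = s.f i j hj y := by
  obtain ⟨j, hj, h1⟩ := s.inj i (x * y⁻¹) (by rw [map_mul, map_inv, h, mul_inv_cancel])
  refine ⟨j, hj, ?_⟩
  rwa [map_mul, map_inv, mul_inv_eq_one] at h1

omit [IsDirectedOrder J] in
theorem coin_mono {i j k : J} (hij : i ≤ j) (hjk : j ≤ k) {x y : G i}
    (h : s.f i j hij x = s.f i j hij y) :
    s.f i k (hij.trans hjk) x = s.f i k (hij.trans hjk) y := by
  rw [← s.ff i j k hij hjk, h, s.ff]

/-- Finitely many coincidences happen at a finite stage. -/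
theorem coin_finset {i : J} (P : Finset (G i × G i)) (h : ∀ p ∈ P, s.g i p.1 = s.g i p.2) :
    ∃ j, ∃ hj : i ≤ j, ∀ p ∈ P, s.f i j hj p.1 = s.f i j hj p.2 := by
  classical
  induction P using Finset.induction_on with
  | empty => exact ⟨i, le_refl i, fun p hp => absurd hp (Finset.notMem_empty p)⟩
  | insert p P hp ih =>
    obtain ⟨j, hj, h1⟩ := ih (fun q hq => h q (Finset.mem_insert_of_mem hq))
    obtain ⟨j', hj', h2⟩ := s.coin (h p (Finset.mem_insert_self p P))
    obtain ⟨k, hk, hk'⟩ := exists_ge_ge j j'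
    refine ⟨k, hj.trans hk, fun q hq => ?_⟩
    rcases Finset.mem_insert.mp hq with rfl | hq
    · exact s.coin_mono hj' hk' h2
    · exact s.coin_mono hj hk (h1 q hq)

theorem coin_fun {i : J} {ι : Type} [Finite ι] {x y : ι → G i} (h : s.g i ∘ x = s.g i ∘ y) :
    ∃ j, ∃ hj : i ≤ j, s.f i j hj ∘ x = s.f i j hj ∘ y := by
  classical
  have := Fintype.ofFinite ι
  obtain ⟨j, hj, h1⟩ := s.coin_finset (Finset.univ.image fun a => (x a, y a)) (by
    intro p hp
    obtain ⟨a, -, rfl⟩ := Finset.mem_image.mp hp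
    exact congrFun h a)
  refine ⟨j, hj, funext fun a => ?_⟩
  exact h1 (x a, y a) (Finset.mem_image_of_mem _ (Finset.mem_univ a))

theorem coin_funs {i : J} {ι : Type} [Finite ι] (S : Finset (ι → G i)) :
    ∃ j, ∃ hj : i ≤ j, ∀ x ∈ S, ∀ y ∈ S, s.g i ∘ x = s.g i ∘ y →
      s.f i j hj ∘ x = s.f i j hj ∘ y := by
  classical
  have key : ∀ P : Finset ((ι → G i) × (ι → G i)), ∃ j, ∃ hj : i ≤ j, ∀ p ∈ P,
      s.g i ∘ p.1 = s.g i ∘ p.2 → s.f i j hj ∘ p.1 = s.f i j hj ∘ p.2 := by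
    intro P
    induction P using Finset.induction_on with
    | empty => exact ⟨i, le_refl i, fun p hp => absurd hp (Finset.notMem_empty p)⟩
    | insert p P hp ih =>
      obtain ⟨j, hj, h1⟩ := ih
      by_cases hc : s.g i ∘ p.1 = s.g i ∘ p.2
      · obtain ⟨j', hj', h2⟩ := s.coin_fun hc
        obtain ⟨k, hk, hk'⟩ := exists_ge_ge j j'
        refine ⟨k, hj.trans hk, fun q hq hq2 => ?_⟩
        rcases Finset.mem_insert.mp hq with rfl | hq
        · funext a
          exact s.coin_mono hj' hk' (congrFun h2 a)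
        · funext a
          exact s.coin_mono hj hk (congrFun (h1 q hq hq2) a)
      · refine ⟨j, hj, fun q hq hq2 => ?_⟩
        rcases Finset.mem_insert.mp hq with rfl | hq
        · exact absurd hq2 hc
        · exact h1 q hq hq2
  obtain ⟨j, hj, h1⟩ := key (S ×ˢ S)
  exact ⟨j, hj, fun x hx y hy => h1 (x, y) (Finset.mem_product.mpr ⟨hx, hy⟩)⟩

theorem lift_fun (i : J) (m : ℕ) (t : Fin m → L) :
    ∃ j, ∃ _ : i ≤ j, ∃ t' : Fin m → G j, s.g j ∘ t' = t := by
  induction m with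
  | zero => exact ⟨i, le_refl i, Fin.elim0, funext fun a => a.elim0⟩
  | succ m ih =>
    obtain ⟨j, hj, t', ht'⟩ := ih (Fin.tail t)
    obtain ⟨k, x, hx⟩ := s.sur (t 0)
    obtain ⟨l, hl, hl'⟩ := exists_ge_ge j k
    refine ⟨l, hj.trans hl, Fin.cons (s.f k l hl' x) (s.f j l hl ∘ t'), ?_⟩
    funext a
    refine Fin.cases ?_ (fun a => ?_) a
    · simp only [Function.comp_apply, Fin.cons_zero]
      rw [s.gf, hx]
    · simp only [Function.comp_apply, Fin.cons_succ]
      rw [s.gf]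
      exact congrFun ht' a

theorem lift_chain (i : J) (n : ℕ) (y : T n L ℚ) :
    ∃ j, ∃ _ : i ≤ j, ∃ y' : T n (G j) ℚ, mp n (s.g j) LinearMap.id y' = y := by
  induction y using Finsupp.induction_linear with
  | zero => exact ⟨i, le_refl i, 0, map_zero _⟩
  | add a b ha hb =>
    obtain ⟨j, hj, a', ha'⟩ := ha
    obtain ⟨k, hk, b', hb'⟩ := hb
    obtain ⟨l, hl, hl'⟩ := exists_ge_ge j k
    refine ⟨l, hj.trans hl, mp n (s.f j l hl) LinearMap.id a' +
      mp n (s.f k l hl') LinearMap.id b', ?_⟩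
    have e1 : (⇑(s.g l) ∘ ⇑(s.f j l hl)) = s.g j := funext fun x => s.gf j l hl x
    have e2 : (⇑(s.g l) ∘ ⇑(s.f k l hl')) = s.g k := funext fun x => s.gf k l hl' x
    rw [map_add, mp_mp, mp_mp, ← ha', ← hb', e1, e2]
    rfl
  | single t r =>
    obtain ⟨j, hj, t', ht'⟩ := s.lift_fun i n t
    exact ⟨j, hj, single t' r, by rw [mp_single, ht']; rfl⟩

theorem kill_chain (i : J) (n : ℕ) (δ : T n (G i) ℚ) (h : mp n (s.g i) LinearMap.id δ = 0) :
    ∃ j, ∃ hj : i ≤ j, mp n (s.f i j hj) LinearMap.id δ = 0 := by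
  obtain ⟨j, hj, h1⟩ := s.coin_funs δ.support
  refine ⟨j, hj, ?_⟩
  rw [mp_eq] at h ⊢
  exact coincide _ _ δ h (fun x hx x' hx' => h1 x hx x' hx')

theorem hq_kill (i : J) (n : ℕ) (x : HQ n (G i)) (h : hqMap (s.g i) n x = 0) :
    ∃ j, ∃ hj : i ≤ j, hqMap (s.f i j hj) n x = 0 := by
  obtain ⟨z, hz⟩ := exists_rpr (Rep.trivial ℚ (G i) ℚ) n x
  obtain ⟨y, hy⟩ := (hz.hq (s.g i)).eq_zero_iff.mp h
  obtain ⟨j, hj, y', hy'⟩ := s.lift_chain i (n + 1) y
  have h1 : mp n (s.g j) LinearMap.id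
      (mp n (s.f i j hj) LinearMap.id z - dd (tQ (G j)) n y') = 0 := by
    rw [map_sub, mp_mp, ← dd_mp (ρ := tQ (G j)) (τ := tQ L) (s.g j) LinearMap.id
      (fun _ _ => rfl), hy']
    have e : mp n (⇑(s.g j) ∘ ⇑(s.f i j hj)) (LinearMap.id ∘ₗ LinearMap.id) z =
        mp n (s.g i) LinearMap.id z := by
      congr 2
      funext x
      exact s.gf i j hj x
    rw [e]
    exact sub_eq_zero.mpr hy.symm
  obtain ⟨k, hk, h2⟩ := s.kill_chain j n _ h1
  refine ⟨k, hj.trans hk, ?_⟩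
  rw [(hz.hq (s.f i k (hj.trans hk))).eq_zero_iff]
  refine ⟨mp (n + 1) (s.f j k hk) LinearMap.id y', ?_⟩
  rw [map_sub, mp_mp, ← dd_mp (ρ := tQ (G j)) (τ := tQ (G k)) (s.f j k hk) LinearMap.id
    (fun _ _ => rfl)] at h2
  have e : mp n (⇑(s.f j k hk) ∘ ⇑(s.f i j hj)) (LinearMap.id ∘ₗ LinearMap.id) z =
      mp n (s.f i k (hj.trans hk)) LinearMap.id z := by
    congr 2
    funext x
    exact s.ff i j k hj hk x
  rw [e] at h2
  exact (sub_eq_zero.mp h2).symm

theorem hq_lift (i : J) (n : ℕ) (y : HQ n L) :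
    ∃ j, ∃ _ : i ≤ j, ∃ x : HQ n (G j), hqMap (s.g j) n x = y := by
  obtain ⟨z, hz⟩ := exists_rpr (Rep.trivial ℚ L ℚ) n y
  obtain ⟨j, hj, z', hz'⟩ := s.lift_chain i n z
  have key : ∃ k, ∃ hk : j ≤ k, Cyc (tQ (G k)) n (mp n (s.f j k hk) LinearMap.id z') := by
    cases n with
    | zero => exact ⟨j, le_refl j, Cyc.zero _ _⟩
    | succ n =>
      have h1 : mp n (s.g j) LinearMap.id (dd (tQ (G j)) n z') = 0 := by
        rw [← dd_mp (ρ := tQ (G j)) (τ := tQ L) (s.g j) LinearMap.id (fun _ _ => rfl), hz']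
        exact (cyc_succ _ _ _).mp hz.cyc
      obtain ⟨k, hk, h2⟩ := s.kill_chain j n _ h1
      refine ⟨k, hk, ?_⟩
      rw [cyc_succ, dd_mp (ρ := tQ (G j)) (τ := tQ (G k)) (s.f j k hk) LinearMap.id
        (fun _ _ => rfl), h2]
  obtain ⟨k, hk, h3⟩ := key
  obtain ⟨x, hx⟩ := exists_class (A := Rep.trivial ℚ (G k) ℚ) n _ h3
  refine ⟨k, hj.trans hk, x, ?_⟩
  have h4 := hx.hq (s.g k)
  have e : mp n (s.g k) LinearMap.id (mp n (s.f j k hk) LinearMap.id z') = z := by
    rw [mp_mp, ← hz']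
    congr 2
    funext x
    exact s.gf j k hk x
  rw [e] at h4
  have h5 := h4.sub hz
  rw [sub_self] at h5
  have h6 := h5.eq_zero_iff.mpr (Submodule.zero_mem _)
  exact sub_eq_zero.mp h6

end Sys

end Pool.Agent.K3h41.SG
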