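import Pool.Agent.K3h41.SG.Simple

/-!
Every countable group embeds in a group with two generators with control of the rational homology.
-/

namespace Pool.Agent.K3h41.SG

open Finsupp Pool.Agent.Y483

section Shift

/-- The action of `ℤ` on the free group on `ℤ` by translations of the basis. -/
def shf : Multiplicative ℤ →* MulAut (FreeGroup ℤ) where
  toFun k := FreeGroup.freeGroupCongr (Equiv.addRight (Multiplicative.toAdd k))
  map_one' := by
    apply MulEquiv.toMonoidHom_injective
    apply FreeGroup.ext_hom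
    intro x
    change FreeGroup.freeGroupCongr _ (FreeGroup.of x) = FreeGroup.of x
    simp
  map_mul' k l := by
    apply MulEquiv.toMonoidHom_injective
    apply FreeGroup.ext_hom
    intro x
    change FreeGroup.freeGroupCongr _ (FreeGroup.of x) =
      FreeGroup.freeGroupCongr _ (FreeGroup.freeGroupCongr _ (FreeGroup.of x))
    simp only [FreeGroup.freeGroupCongr_apply, FreeGroup.map.of, toAdd_mul,
      Equiv.coe_addRight]
    congr 1
    ring

theorem shf_of (k : Multiplicative ℤ) (x : ℤ) :
    shf k (FreeGroup.of x) = FreeGroup.of (x + Multiplicative.toAdd k) := by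
  change FreeGroup.freeGroupCongr _ (FreeGroup.of x) = _
  simp

/-- The group generated by `x_0` and a shift. -/
abbrev Lam : Type := FreeGroup ℤ ⋊[shf] Multiplicative ℤ

/-- the shift -/
def sh : Lam := SemidirectProduct.inr (Multiplicative.ofAdd 1)

/-- the basis element `x_0` -/
def x0 : Lam := SemidirectProduct.inl (FreeGroup.of 0)

theorem sh_conj (n : ℕ) : sh ^ n * x0 * (sh ^ n)⁻¹ =
    SemidirectProduct.inl (FreeGroup.of (n : ℤ)) := by
  unfold sh x0
  rw [← map_pow, ← map_inv, ← SemidirectProduct.inl_aut, shf_of]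
  simp [← ofAdd_nsmul]

/-- Elements with images `sh^n x0 sh^-n` are a basis of a free group. -/
theorem free_of_shift {P : Type} [Group P] (u : FreeGroup ℕ →* P) (θ : P →* Lam)
    (h : ∀ n, θ (u (FreeGroup.of n)) = sh ^ n * x0 * (sh ^ n)⁻¹) : Function.Injective u := by
  have h1 : θ.comp u = SemidirectProduct.inl.comp (FreeGroup.map fun n : ℕ => (n : ℤ)) := by
    apply FreeGroup.ext_hom
    intro n
    rw [MonoidHom.comp_apply, MonoidHom.comp_apply, h, sh_conj, FreeGroup.map.of]
  have h2 : Function.Injective (θ.comp u) := by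
    rw [h1]
    exact SemidirectProduct.inl_injective.comp
      (FreeGroup.map_injective fun a b hab => by exact_mod_cast hab)
  exact fun a b hab => h2 (by rw [MonoidHom.comp_apply, MonoidHom.comp_apply, hab])

end Shift

section TwoGen

variable (C : Type) [Group C] (c : ℕ → C)

/-- The free product with a free group of rank two. -/
abbrev FP2 : Type := Monoid.Coprod C (FreeGroup Bool)

/-- a generator -/
def ga : FP2 C := Monoid.Coprod.inr (FreeGroup.of true)

/-- a generator -/
def gb : FP2 C := Monoid.Coprod.inr (FreeGroup.of false)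

variable {C}

/-- `x_n ↦ a^n b a^-n` -/
def tu : Unit → FreeGroup ℕ →* FP2 C := fun _ =>
  FreeGroup.lift fun n => ga C ^ n * gb C * (ga C ^ n)⁻¹

/-- `x_n ↦ c_n b^n a b^-n` -/
def tv : Unit → FreeGroup ℕ →* FP2 C := fun _ =>
  FreeGroup.lift fun n => Monoid.Coprod.inl (c n) * (gb C ^ n * ga C * (gb C ^ n)⁻¹)

theorem tu_inj (i : Unit) : Function.Injective (tu (C := C) i) := by
  apply free_of_shift _ (Monoid.Coprod.lift (1 : C →* Lam)
    (FreeGroup.lift fun b => if b = true then sh else x0))
  intro n
  simp [tu, ga, gb, Monoid.Coprod.lift_apply_inr]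

theorem tv_inj (i : Unit) : Function.Injective (tv c i) := by
  apply free_of_shift _ (Monoid.Coprod.lift (1 : C →* Lam)
    (FreeGroup.lift fun b => if b = true then x0 else sh))
  intro n
  simp [tv, ga, gb, Monoid.Coprod.lift_apply_inr, Monoid.Coprod.lift_apply_inl]

/-- The group with two generators. -/
abbrev TG : Type := Hnn (tu (C := C)) (tv c)

/-- The embedding. -/
noncomputable def ti : C →* TG c := (Hnn.of (tu (C := C)) (tv c)).comp Monoid.Coprod.inl

theorem cinl_injective : Function.Injective (Monoid.Coprod.inl : C →* FP2 C) := by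
  intro a b h
  have h1 := congrArg (Monoid.Coprod.lift (MonoidHom.id C) (1 : FreeGroup Bool →* C)) h
  rwa [Monoid.Coprod.lift_apply_inl, Monoid.Coprod.lift_apply_inl] at h1

theorem ti_injective : Function.Injective (ti c) :=
  (of_injective (tu_inj (C := C)) (tv_inj c)).comp cinl_injective

theorem ti_hq (n : ℕ) (hn : n ≠ 1) : Function.Injective (hqMap (ti c) n) := by
  rw [injective_iff_map_eq_zero]
  intro x hx
  unfold ti at hx
  rw [hqMap_comp] at hx
  have h1 : hqMap (Monoid.Coprod.inl : C →* FP2 C) n x = 0 := by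
    apply hnn_hq (tu_inj (C := C)) (tv_inj c) n hn
    rw [hx, map_zero]
  have h2 : (Monoid.Coprod.lift (MonoidHom.id C) (1 : FreeGroup Bool →* C)).comp
      (Monoid.Coprod.inl : C →* FP2 C) = MonoidHom.id C := by
    ext g
    rw [MonoidHom.comp_apply, Monoid.Coprod.lift_apply_inl]
  rw [← hqMap_id C n x, ← h2, hqMap_comp, h1, map_zero]

theorem tg_gen (h0 : c 0 = 1) (hc : Function.Surjective c) :
    Subgroup.closure {Hnn.of (tu (C := C)) (tv c) (gb C), Hnn.t (tu (C := C)) (tv c) ()} = ⊤ := by
  set S := Subgroup.closure {Hnn.of (tu (C := C)) (tv c) (gb C), Hnn.t (tu (C := C)) (tv c) ()}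
    with hS
  have hb : Hnn.of (tu (C := C)) (tv c) (gb C) ∈ S := Subgroup.subset_closure (by simp)
  have ht : Hnn.t (tu (C := C)) (tv c) () ∈ S := Subgroup.subset_closure (by simp)
  have hv : ∀ n, Hnn.of (tu (C := C)) (tv c) (tu () (FreeGroup.of n)) ∈ S →
      Hnn.of (tu (C := C)) (tv c) (tv c () (FreeGroup.of n)) ∈ S := by
    intro n hn
    have h1 := Hnn.rel (tu (C := C)) (tv c) () (FreeGroup.of n)
    have h2 : Hnn.of (tu (C := C)) (tv c) (tv c () (FreeGroup.of n)) =
        Hnn.t (tu (C := C)) (tv c) () * Hnn.of (tu (C := C)) (tv c) (tu () (FreeGroup.of n)) *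
          (Hnn.t (tu (C := C)) (tv c) ())⁻¹ := by
      rw [h1]; group
    rw [h2]
    exact S.mul_mem (S.mul_mem ht hn) (S.inv_mem ht)
  have eu : ∀ n, Hnn.of (tu (C := C)) (tv c) (tu () (FreeGroup.of n)) =
      Hnn.of (tu (C := C)) (tv c) (ga C) ^ n * Hnn.of (tu (C := C)) (tv c) (gb C) *
        (Hnn.of (tu (C := C)) (tv c) (ga C) ^ n)⁻¹ := by
    intro n
    unfold tu
    rw [FreeGroup.lift_apply_of]
    simp only [map_mul, map_pow, map_inv]
  have ev : ∀ n, Hnn.of (tu (C := C)) (tv c) (tv c () (FreeGroup.of n)) =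
      ti c (c n) * (Hnn.of (tu (C := C)) (tv c) (gb C) ^ n * Hnn.of (tu (C := C)) (tv c) (ga C) *
        (Hnn.of (tu (C := C)) (tv c) (gb C) ^ n)⁻¹) := by
    intro n
    conv_lhs => rw [tv, FreeGroup.lift_apply_of]
    simp only [map_mul, map_pow, map_inv]
    rfl
  have ha : Hnn.of (tu (C := C)) (tv c) (ga C) ∈ S := by
    have h1 := hv 0 (by rw [eu]; simpa using hb)
    rw [ev, h0] at h1
    simpa using h1
  have hcn : ∀ n, ti c (c n) ∈ S := by
    intro n
    have h1 := hv n (by
      rw [eu]
      exact S.mul_mem (S.mul_mem (S.pow_mem ha n) hb) (S.inv_mem (S.pow_mem ha n)))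
    rw [ev] at h1
    have h2 : Hnn.of (tu (C := C)) (tv c) (gb C) ^ n * Hnn.of (tu (C := C)) (tv c) (ga C) *
        (Hnn.of (tu (C := C)) (tv c) (gb C) ^ n)⁻¹ ∈ S :=
      S.mul_mem (S.mul_mem (S.pow_mem hb n) ha) (S.inv_mem (S.pow_mem hb n))
    exact (S.mul_mem_cancel_right h2).mp h1
  apply Hnn.gen
  · rintro _ ⟨y, rfl⟩
    induction y using Monoid.Coprod.induction_on with
    | inl g =>
      obtain ⟨n, rfl⟩ := hc g
      exact hcn n
    | inr w =>
      induction w using FreeGroup.induction_on with
      | C1 => rw [map_one, map_one]; exact S.one_mem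
      | of i => cases i
                · exact hb
                · exact ha
      | inv_of i ih => rw [map_inv, map_inv]; exact S.inv_mem ih
      | mul a b ha hb => rw [map_mul, map_mul]; exact S.mul_mem ha hb
    | mul a b ha hb => rw [map_mul]; exact S.mul_mem ha hb
  · rintro ⟨⟩
    exact ht

/-- **Every countable group embeds in a group with two generators such that the map on rational
homology is injective in all degrees different from one.** -/
theorem exists_twoGen (C : Type) [Group C] [Countable C] : ∃ (E : Type) (_ : Group E),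
    (∃ a b : E, Subgroup.closure {a, b} = ⊤) ∧
      ∃ i : C →* E, Function.Injective i ∧ ∀ n, n ≠ 1 → Function.Injective (hqMap i n) := by
  obtain ⟨c', hc'⟩ := exists_surjective_nat C
  let c : ℕ → C := fun n => match n with
    | 0 => 1
    | n + 1 => c' n
  have hc : Function.Surjective c := by
    intro x
    obtain ⟨n, rfl⟩ := hc' x
    exact ⟨n + 1, rfl⟩
  exact ⟨TG c, inferInstance, ⟨_, _, tg_gen c rfl hc⟩, ti c, ti_injective c, ti_hq c⟩

end TwoGen

end Pool.Agent.K3h41.SG
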