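import Pool.Agent.K3h41.SG.TwoGen
import Pool.Agent.K3h41.SG.Cont2
import Pool.Agent.Y75.MQ.Stm

/-!
A countable group which detects the kernels of all families of natural transformations on all
countable groups.
-/

namespace Pool.Agent.K3h41.SG

open Finsupp Pool.Agent.Y483 Pool.Agent.Y110.KW Pool.Agent.Y75.MQ CategoryTheory DirectSum

/-! ### presentations -/

section Pres

variable {F G : Type} [Group F] [Group G] (φ : F →* G)

/-- Finite sets of relators. -/
abbrev RelSet : Type := {R : Finset F // ∀ r ∈ R, φ r = 1}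

instance : IsDirectedOrder (RelSet φ) where
  directed a b := by
    classical
    refine ⟨⟨a.1 ∪ b.1, ?_⟩, ?_, ?_⟩
    · intro r hr
      rcases Finset.mem_union.mp hr with h | h
      · exact a.2 r h
      · exact b.2 r h
    · exact Finset.subset_union_left
    · exact Finset.subset_union_right

/-- The group with the relators `R`. -/
abbrev QR (R : Finset F) : Type := F ⧸ Subgroup.normalClosure (R : Set F)

/-- The map to the group with more relators. -/
def qmap {R R' : Finset F} (h : R ⊆ R') : QR R →* QR R' :=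
  QuotientGroup.map _ _ (MonoidHom.id F)
    (Subgroup.normalClosure_mono (by exact_mod_cast h))

theorem qmap_mk {R R' : Finset F} (h : R ⊆ R') (w : F) :
    qmap h (QuotientGroup.mk w) = QuotientGroup.mk w := rfl

/-- The map to `G`. -/
def qlift (R : RelSet φ) : QR R.1 →* G :=
  QuotientGroup.lift _ φ (by
    have : Subgroup.normalClosure (R.1 : Set F) ≤ φ.ker :=
      Subgroup.normalClosure_le_normal fun r hr => R.2 r hr
    exact fun x hx => this hx)

theorem qlift_mk (R : RelSet φ) (w : F) : qlift φ R (QuotientGroup.mk w) = φ w := rfl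

theorem qlift_inj (i : RelSet φ) (x : QR i.1) (h : qlift φ i x = 1) :
    ∃ j : RelSet φ, ∃ h : i.1 ⊆ j.1, qmap h x = 1 := by
  classical
  induction x using QuotientGroup.induction_on with
  | H w =>
    rw [qlift_mk] at h
    refine ⟨⟨insert w i.1, ?_⟩, Finset.subset_insert _ _, ?_⟩
    · intro r hr
      rcases Finset.mem_insert.mp hr with rfl | hr
      · exact h
      · exact i.2 r hr
    · rw [qmap_mk, QuotientGroup.eq_one_iff]
      apply Subgroup.subset_normalClosure
      simp

theorem qmap_qmap {R R' R'' : Finset F} (h : R ⊆ R') (h' : R' ⊆ R'') (x : QR R) :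
    qmap h' (qmap h x) = qmap (h.trans h') x := by
  induction x using QuotientGroup.induction_on with
  | H w => rw [qmap_mk, qmap_mk, qmap_mk]

theorem qlift_qmap (i j : RelSet φ) (h : i.1 ⊆ j.1) (x : QR i.1) :
    qlift φ j (qmap h x) = qlift φ i x := by
  induction x using QuotientGroup.induction_on with
  | H w => rw [qmap_mk, qlift_mk, qlift_mk]

theorem qlift_sur (hφ : Function.Surjective φ) (y : G) : ∃ i x, qlift φ i x = y := by
  obtain ⟨w, rfl⟩ := hφ y
  exact ⟨⟨∅, by simp⟩, QuotientGroup.mk w, qlift_mk φ _ w⟩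

/-- The group `G` as the colimit of the groups with finitely many of its relators. -/
def presSys (hφ : Function.Surjective φ) :
    Sys (RelSet φ) (fun R => QR R.1) G where
  f i j h := qmap h
  g i := qlift φ i
  ff i j k h h' x := qmap_qmap h h' x
  gf i j h x := qlift_qmap φ i j h x
  sur y := qlift_sur φ hφ y
  inj i x h := qlift_inj φ i x h

end Pres

/-! ### families -/

section Fam

variable {B : Type} (d : B → ℕ) {J : Type} [Preorder J] [IsDirectedOrder J] {G : J → Type}
  [∀ i, Group (G i)] {L : Type} [Group L] (s : Sys J G L)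

theorem hb_lift (x : HB d L) : ∃ i, ∃ y : HB d (G i), hbMap d (s.g i) y = x := by
  classical
  induction x using DirectSum.induction_on with
  | zero =>
    obtain ⟨i, _, _⟩ := s.sur 1
    exact ⟨i, 0, map_zero _⟩
  | of b x =>
    obtain ⟨i, _, _⟩ := s.sur 1
    obtain ⟨j, _, y, hy⟩ := s.hq_lift i (d b) x
    exact ⟨j, DirectSum.of (fun b : B => HQ (d b) (G j)) b y, by rw [hbMap_of, hy]⟩
  | add a b ha hb =>
    obtain ⟨i, a', rfl⟩ := ha
    obtain ⟨j, b', rfl⟩ := hb
    obtain ⟨k, hk, hk'⟩ := exists_ge_ge i j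
    have e1 : (s.g k).comp (s.f i k hk) = s.g i := by ext x; exact s.gf i k hk x
    have e2 : (s.g k).comp (s.f j k hk') = s.g j := by ext x; exact s.gf j k hk' x
    refine ⟨k, hbMap d (s.f i k hk) a' + hbMap d (s.f j k hk') b', ?_⟩
    rw [map_add, ← hbMap_comp, ← hbMap_comp, e1, e2]

variable {E : GrpCat.{0} ⥤ ModuleCat.{0} ℚ} (α : ∀ b : B, hq (d b) ⟶ E)

/-- Elements of the kernel come from elements of the kernel at a finite stage. -/
theorem ker_lift (hE : Cont E) (x : HB d L) (hx : tb d α L x = 0) :
    ∃ i, ∃ y : HB d (G i), tb d α (G i) y = 0 ∧ hbMap d (s.g i) y = x := by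
  obtain ⟨i, y, hy⟩ := hb_lift d s x
  have h1 : emap E (s.g i) (tb d α (G i) y) = 0 := by rw [tb_nat, hy, hx]
  obtain ⟨j, hj, h2⟩ := hE J G L s i _ h1
  refine ⟨j, hbMap d (s.f i j hj) y, by rw [← tb_nat, h2], ?_⟩
  have e1 : (s.g j).comp (s.f i j hj) = s.g i := by ext x; exact s.gf i j hj x
  rw [← hbMap_comp, e1, hy]

theorem kerFam_bot {G : Type} [Group G] :
    kerFam α (GrpCat.of G) = ⊥ ↔ ∀ x : HB d G, tb d α G x = 0 → x = 0 := by
  constructor
  · intro h x hx
    have h1 : x ∈ kerFam α (GrpCat.of G) := hx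
    rw [h] at h1
    exact h1
  · intro h
    rw [eq_bot_iff]
    intro x hx
    exact h x hx

/-- If a homomorphism is injective on homology in the degrees of the family, then the kernel of
the source is zero if the kernel of the target is zero. -/
theorem ker_of_inj {G K : Type} [Group G] [Group K] (i : G →* K)
    (hi : ∀ b, Function.Injective (hqMap i (d b))) (h : kerFam α (GrpCat.of K) = ⊥) :
    kerFam α (GrpCat.of G) = ⊥ := by
  rw [kerFam_bot] at h ⊢
  intro x hx
  have h1 := h (hbMap d i x) (tb_map d α i hx)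
  apply DFunLike.ext
  intro b
  apply hi b
  rw [← hbMap_apply, h1]
  exact (map_zero (hqMap i (d b))).symm

end Fam

/-! ### the universal group -/

section Univ

/-- The free product of all groups with finitely many relators and the generators `x_0, x_1, …`. -/
abbrev C₀ : Type := Monoid.CoprodI fun R : Finset (FreeGroup ℕ) => QR R

theorem countable_C₀ : Countable C₀ := by
  have : Countable (FreeGroup ℕ) := countable_free
  have h1 : ∀ R : Finset (FreeGroup ℕ), Countable (QR R) := fun R =>
    (QuotientGroup.mk_surjective (s := Subgroup.normalClosure (R : Set (FreeGroup ℕ)))).countable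
  have : Countable (Σ R : Finset (FreeGroup ℕ), QR R) := inferInstance
  have : Countable (FreeMonoid (Σ R : Finset (FreeGroup ℕ), QR R)) :=
    inferInstanceAs (Countable (List (Σ R : Finset (FreeGroup ℕ), QR R)))
  have h2 : Function.Surjective (Con.mk' (conGen (Monoid.CoprodI.Rel
      (fun R : Finset (FreeGroup ℕ) => QR R)))) := Con.mk'_surjective
  exact h2.countable

open Classical in
/-- The retraction to a factor. -/
noncomputable def retr (R : Finset (FreeGroup ℕ)) : C₀ →* QR R :=
  Monoid.CoprodI.lift fun R' => if h : R' = R then h ▸ MonoidHom.id (QR R') else 1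

theorem retr_of (R : Finset (FreeGroup ℕ)) :
    (retr R).comp (Monoid.CoprodI.of (M := fun R : Finset (FreeGroup ℕ) => QR R) (i := R)) =
      MonoidHom.id (QR R) := by
  apply MonoidHom.ext
  intro x
  unfold retr
  rw [MonoidHom.comp_apply, Monoid.CoprodI.lift_of, dif_pos rfl]

variable {B : Type} {d : B → ℕ} {E : GrpCat.{0} ⥤ ModuleCat.{0} ℚ} (α : ∀ b : B, hq (d b) ⟶ E)

/-- The kernel is zero for all countable groups if it is zero for the group `C₀`. -/
theorem ker_of_C₀ (hE : Cont E) (h : kerFam α (GrpCat.of C₀) = ⊥) (G : Type) [Group G]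
    [Countable G] : kerFam α (GrpCat.of G) = ⊥ := by
  obtain ⟨c, hc⟩ := exists_surjective_nat G
  let φ : FreeGroup ℕ →* G := FreeGroup.lift c
  have hφ : Function.Surjective φ := by
    intro x
    obtain ⟨n, rfl⟩ := hc x
    exact ⟨FreeGroup.of n, FreeGroup.lift_apply_of⟩
  rw [kerFam_bot] at h ⊢
  intro x hx
  obtain ⟨R, y, hy, hyx⟩ := ker_lift d (presSys φ hφ) α hE x hx
  have h1 := h (hbMap d (Monoid.CoprodI.of (M := fun R : Finset (FreeGroup ℕ) => QR R)
    (i := R.1)) y) (tb_map d α _ hy)
  have h2 : y = 0 := by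
    rw [← hbMap_id d (QR R.1) y, ← retr_of R.1, hbMap_comp, h1, map_zero]
  rw [← hyx, h2, map_zero]

/-! ### uncountable groups -/

/-- A group as the union of its finitely generated subgroups. -/
def subSys (G : Type) [Group G] :
    Sys (Finset G) (fun P => Subgroup.closure (P : Set G)) G where
  f i j h := Subgroup.inclusion (Subgroup.closure_mono (by exact_mod_cast h))
  g i := Subgroup.subtype _
  ff _ _ _ _ _ _ := rfl
  gf _ _ _ _ := rfl
  sur y := ⟨{y}, ⟨y, Subgroup.subset_closure (by simp)⟩, rfl⟩
  inj i x h := ⟨i, le_refl i, Subtype.ext h⟩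

theorem countable_closure {G : Type} [Group G] (P : Finset G) :
    Countable (Subgroup.closure (P : Set G)) := by
  have : Countable (FreeGroup P) := countable_free
  have h : (FreeGroup.lift (fun x : P => (x : G))).range = Subgroup.closure (P : Set G) := by
    rw [FreeGroup.range_lift_eq_closure]
    congr 1
    ext x
    simp
  rw [← h]
  exact (MonoidHom.rangeRestrict_surjective _).countable

theorem ker_all (hE : Cont E)
    (h : ∀ (G : Type) [Group G] [Countable G], kerFam α (GrpCat.of G) = ⊥) (G : Type) [Group G] :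
    kerFam α (GrpCat.of G) = ⊥ := by
  classical
  rw [kerFam_bot]
  intro x hx
  obtain ⟨P, y, hy, hyx⟩ := ker_lift d (subSys G) α hE x hx
  have := countable_closure P
  have h1 := (kerFam_bot d α).mp (h (Subgroup.closure (P : Set G))) y hy
  rw [← hyx, h1, map_zero]

theorem hq_inj_ne {G K : Type} [Group G] [Group K] {i : G →* K}
    (hi : ∀ n, n ≠ 1 → Function.Injective (hqMap i n)) (hd : ∀ b, d b ≠ 1) (b : B) :
    Function.Injective (hqMap i (d b)) := hi _ (hd b)

/-- **One countable simple group and one group with two generators detect all kernels.** -/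
theorem universal : ∃ (S E : Type) (_ : Group S) (_ : Group E), Countable S ∧ IsSimpleGroup S ∧
    (∃ a b : E, Subgroup.closure {a, b} = ⊤) ∧
    ∀ (L : GrpCat.{0} ⥤ ModuleCat.{0} ℚ) (_ : Cont L) (B : Type) (d : B → ℕ)
      (_ : ∀ b, d b ≠ 1) (α : ∀ b : B, hq (d b) ⟶ L),
      List.TFAE [∀ (G : Type) [Group G], kerFam α (GrpCat.of G) = ⊥,
        kerFam α (GrpCat.of S) = ⊥, kerFam α (GrpCat.of E) = ⊥] := by
  have := countable_C₀
  obtain ⟨E, hE, ⟨a, b, hab⟩, i, hi, hi2⟩ := exists_twoGen C₀
  refine ⟨Un C₀, E, inferInstance, hE, countable_un C₀, un_simple C₀, ⟨a, b, hab⟩, ?_⟩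
  intro L hL B d hd α
  tfae_have 1 → 2 := fun h => h (Un C₀)
  tfae_have 1 → 3 := fun h => h E
  tfae_have 2 → 1 := by
    intro h G _
    exact ker_all α hL (fun G _ _ =>
      ker_of_C₀ α hL (ker_of_inj d α (inc C₀) (hq_inj_ne (inc_hq C₀) hd) h) G) G
  tfae_have 3 → 1 := by
    intro h G _
    exact ker_all α hL (fun G _ _ =>
      ker_of_C₀ α hL (ker_of_inj d α i (hq_inj_ne hi2 hd) h) G) G
  tfae_finish

end Univ

end Pool.Agent.K3h41.SG
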